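import Pool.Agent.H458.AG.Tw2
import Pool.Agent.H458.AU.Core

/-!
# Project AG (helper458): the exceptional set
-/

set_option autoImplicit false
set_option linter.all false

open Polynomial Matrix IsDedekindDomain NumberField
open scoped Classical

namespace Pool.Agent.H458.AG

open Pool.Agent.N352.PF (nv)
open Pool.Agent.N352.PJ (dd)
open Pool.Agent.H459.UF (fo fo_scale)
open Pool.Agent.N783.PF (Bd Cg sp rd Ht GoodS LBad Weak dsc fF Dp SelZero)
open Pool.Agent.H458.AU (PrQ S_DEG qq qq_spec)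

/-- The blocks of primes. -/
theorem blocks (hDEG : S_DEG) (hGC : S_GC) (F : Type) [Field F] [NumberField F] (g : ℕ)
    (hg : 1 ≤ g) (W : ℕ) (M : ℝ) (hW : 0 < W) (hgW : 2 * g + 1 ≤ W) : ∀ k : ℕ, ∃ Bl : ℕ → Finset ℕ,
    (∀ i < k, ∀ q ∈ Bl i, PrQ W q (qq F W q)) ∧
    (∀ i < k, ∀ j < k, i ≠ j → Disjoint (Bl i) (Bl j)) ∧
    ∀ i < k, M ≤ ∑ q ∈ Bl i, dl g q (qq F W q) := by
  obtain ⟨c, hc, hGC⟩ := hGC F g hg
  intro k
  induction k with
  | zero => exact ⟨fun _ => ∅, fun i hi => absurd hi (by omega), fun i hi => absurd hi (by omega),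
      fun i hi => absurd hi (by omega)⟩
  | succ k ih =>
    obtain ⟨Bl, h1, h2, h3⟩ := ih
    obtain ⟨X₀, hX₀⟩ : ∃ X₀ : ℕ, ∀ i < k, ∀ q ∈ Bl i, q ≤ X₀ := by
      refine ⟨((Finset.range k).biUnion Bl).sup id, fun i hi q hq => ?_⟩
      exact Finset.le_sup (f := id) (Finset.mem_biUnion.2 ⟨i, Finset.mem_range.2 hi, hq⟩)
    obtain ⟨B, 𝔮, hB, hM⟩ := hDEG F W X₀ (M / c) hW
    have hB' : ∀ q ∈ B, PrQ W q (qq F W q) ∧ Ideal.absNorm (qq F W q) = q := fun q hq =>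
      qq_spec ⟨(hB q hq).2.1, (hB q hq).2.2⟩
    have hdj : ∀ i < k, Disjoint (Bl i) B := by
      intro i hi
      rw [Finset.disjoint_left]
      intro q hq hqB
      have h4 := hX₀ i hi q hq
      have h5 := (hB q hqB).1
      omega
    refine ⟨Function.update Bl k B, ?_, ?_, ?_⟩
    · intro i hi q hq
      rcases Nat.lt_succ_iff_lt_or_eq.1 hi with h | h
      · rw [Function.update_of_ne (by omega)] at hq
        exact h1 i h q hq
      · subst h
        rw [Function.update_self] at hq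
        exact (hB' q hq).1
    · intro i hi j hj hij
      rcases Nat.lt_succ_iff_lt_or_eq.1 hi with h | h
      · rcases Nat.lt_succ_iff_lt_or_eq.1 hj with h' | h'
        · rw [Function.update_of_ne (by omega), Function.update_of_ne (by omega)]
          exact h2 i h j h' hij
        · subst h'
          rw [Function.update_of_ne (by omega), Function.update_self]
          exact hdj i h
      · subst h
        rcases Nat.lt_succ_iff_lt_or_eq.1 hj with h' | h'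
        · rw [Function.update_self, Function.update_of_ne (by omega)]
          exact (hdj j h').symm
        · exact absurd h'.symm hij
    · intro i hi
      rcases Nat.lt_succ_iff_lt_or_eq.1 hi with h | h
      · rw [Function.update_of_ne (by omega)]
        exact h3 i h
      · subst h
        rw [Function.update_self]
        calc M = c * (M / c) := by field_simp
          _ ≤ c * ∑ q ∈ B, 1 / (q : ℝ) := mul_le_mul_of_nonneg_left hM hc.le
          _ = ∑ q ∈ B, c / q := by rw [Finset.mul_sum]; exact Finset.sum_congr rfl fun q _ => by ring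
          _ ≤ _ := Finset.sum_le_sum fun q hq => hGC W q _ hW hgW (hB' q hq).1 (hB' q hq).2

theorem scale_inj {F : Type} [Field F] [NumberField F] {c : ℕ} (hc : 0 < c) {g : ℕ}
    {f f' : (𝓞 F)[X]} (hf : Pol g f) (hf' : Pol g f')
    (h : f.scaleRoots (c : 𝓞 F) = f'.scaleRoots (c : 𝓞 F)) : f = f' := by
  refine Polynomial.ext fun j => ?_
  have h1 := congrArg (fun p : (𝓞 F)[X] => p.coeff j) h
  simp only [coeff_scaleRoots] at h1
  rw [hf.deg, hf'.deg] at h1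
  have h2 : (c : 𝓞 F) ^ (2 * g + 1 - j) ≠ 0 := pow_ne_zero _ (Nat.cast_ne_zero.2 hc.ne')
  exact mul_right_cancel₀ h2 h1

/-- The twist by one of the numbers in `𝒟` has zero 2-Selmer groups over all the extensions in the class. -/
def Tws {F : Type} [Field F] [NumberField F] (R : ℕ) (𝒟 : Finset ℕ) (f : (𝓞 F)[X]) : Prop :=
  ∃ D ∈ 𝒟, ∀ (M : Type) [Field M] [NumberField M] [Algebra F M] [IsGalois F M] (n : ℕ),
    Module.finrank F M = 2 ^ n → ClsM F M R f → SelZero (fo M (f.scaleRoots (D : 𝓞 F)))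

/-- **The exceptional set.** -/
theorem core (hTAIL : S_TAIL) (hFEW : S_FEW) (hDC : S_DC) (hDEG : S_DEG) (hGC : S_GC)
    (hSCG : S_SCG) (hLLs : S_LL) (hSEL : S_SELSC) (hIRR : S_IRR) (hTOW : S_TOW)
    (F : Type) [Field F] [NumberField F] (g : ℕ) (hg : 1 ≤ g) (W₀ : ℕ) (hW₀ : 0 < W₀) (ε : ℝ)
    (hε : 0 < ε) : ∃ (R : ℕ) (𝒟 : Finset ℕ), 0 < R ∧ W₀ ∣ R ∧ 1 ∈ 𝒟 ∧
    (∀ D ∈ 𝒟, Squarefree D ∧ D % (8 * W₀) = 1 % (8 * W₀) ∧ D ∣ R) ∧
    ∃ B₀ : ℕ, ∀ B ≥ B₀, {f : (𝓞 F)[X] | Ht g B f}.Finite ∧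
    (({f : (𝓞 F)[X] | Ht g B f ∧ ¬ Tws R 𝒟 f}.ncard : ℝ)) ≤
      ε * (B : ℝ) ^ (Module.finrank ℚ F * dd g) := by
  obtain ⟨d, hd⟩ : ∃ d, d = Module.finrank ℚ F := ⟨_, rfl⟩
  obtain ⟨κ, hκ⟩ := tw_of2 hLLs hTOW F g hg
  obtain ⟨C, K, hDC⟩ := hDC F g κ hg
  obtain ⟨Mt, hT⟩ := hTAIL F g hg (ε / 4) (by positivity)
  obtain ⟨W, hW⟩ : ∃ W : ℕ, W = 2 * W₀ * (Mt + κ + K + (2 * g + 1)).factorial := ⟨_, rfl⟩
  have hfac : 0 < (Mt + κ + K + (2 * g + 1)).factorial := Nat.factorial_pos _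
  have hW0 : 0 < W := by rw [hW]; positivity
  have h2W : 2 ∣ W := by rw [hW, mul_assoc]; exact dvd_mul_right _ _
  have hW₀W : W₀ ∣ W := by
    rw [hW]
    exact Dvd.intro_left _ (by ring : (2 * (Mt + κ + K + (2 * g + 1)).factorial) * W₀ = _)
  have hle : Mt + κ + K + (2 * g + 1) ≤ W := by
    calc Mt + κ + K + (2 * g + 1) ≤ (Mt + κ + K + (2 * g + 1)).factorial := Nat.self_le_factorial _
      _ ≤ 2 * W₀ * (Mt + κ + K + (2 * g + 1)).factorial := Nat.le_mul_of_pos_left _ (by positivity)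
      _ = W := hW.symm
  obtain ⟨c, hc⟩ : ∃ c : ℕ, c = (2 * W) ^ 2 := ⟨_, rfl⟩
  have hc0 : 0 < c := by rw [hc]; positivity
  obtain ⟨Bt, hT⟩ := hT c hc0
  obtain ⟨Bi, hI⟩ := hIRR F g hg (ε / 4) (by positivity)
  -- the number of the blocks
  obtain ⟨A, hA⟩ : ∃ A : ℝ, A = C * (4 * 2 ^ κ * c) ^ (d * dd g) := ⟨_, rfl⟩
  have hA0 : 0 ≤ A := by rw [hA]; positivity
  obtain ⟨k, hk⟩ : ∃ k : ℕ, (5 / 9 : ℝ) ^ k * A ≤ ε / 4 := by
    obtain ⟨k, hk⟩ := exists_pow_lt_of_lt_one (show (0 : ℝ) < ε / 4 / (A + 1) by positivity)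
      (show (5 / 9 : ℝ) < 1 by norm_num)
    refine ⟨k, ?_⟩
    rw [lt_div_iff₀ (by positivity)] at hk
    have h1 : (0 : ℝ) ≤ (5 / 9 : ℝ) ^ k := by positivity
    nlinarith
  obtain ⟨M₁, hM₁, hFEW⟩ := hFEW F g hg (ε / (4 * (k + 1))) (by positivity)
  obtain ⟨Bl, hB1, hB2, hB3⟩ := blocks hDEG hGC F g hg W M₁ hW0 (by omega) k
  have hpos : ∀ i : Fin k, 0 < ∑ q ∈ Bl i, dl g q (qq F W q) := fun i => lt_of_lt_of_le hM₁ (hB3 i i.2)
  obtain ⟨N₀, hN₀⟩ := hDC W k (fun i => Bl i) (qq F W) (by omega) hW0 (by omega) (fun i => hB1 i i.2)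
    (fun i j hij => hB2 i i.2 j j.2 fun h => hij (Fin.ext h)) hpos
  have hF : ∀ i : Fin k, ∃ B₀ : ℕ, ∀ B ≥ B₀,
      (({f : (𝓞 F)[X] | Ht g B f ∧ (((Bl i).filter fun q => Gq q (qq F W q) f).card : ℝ) <
        9 / 10 * ∑ q ∈ Bl i, dl g q (qq F W q)}.ncard : ℝ)) ≤
        ε / (4 * (k + 1)) * (B : ℝ) ^ (Module.finrank ℚ F * dd g) := fun i =>
    hFEW W (Bl i) (qq F W) (hB1 i i.2) (hB3 i i.2)
  choose Bf hBf using hF
  obtain ⟨U, hU⟩ : ∃ U : Finset ℕ, U = Finset.univ.biUnion fun i : Fin k => Bl i := ⟨_, rfl⟩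
  have hUp : ∀ q ∈ U, PrQ W q (qq F W q) := by
    intro q hq
    rw [hU, Finset.mem_biUnion] at hq
    obtain ⟨i, -, hq⟩ := hq
    exact hB1 i i.2 q hq
  have hmod : ∀ J ⊆ U, (∏ q ∈ J, q) % (8 * W) = 1 % (8 * W) := fun J hJ =>
    Pool.Agent.H459.UD.dp_mod (fun q hq => (hUp q hq).mod) hJ
  have hqc : ∀ q ∈ U, ¬ q ∣ c := by
    intro q hq hdv
    rw [hc] at hdv
    have h1 := (hUp q hq).pr.dvd_of_dvd_pow hdv
    have h2 := Nat.le_of_dvd (by positivity) h1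
    have h3 := (hUp q hq).big
    rcases (hUp q hq).pr.dvd_mul.1 h1 with h4 | h4
    · have h5 := Nat.le_of_dvd (by norm_num) h4
      omega
    · have h5 := Nat.le_of_dvd hW0 h4
      omega
  obtain ⟨R, hR⟩ : ∃ R : ℕ, R = W * ∏ q ∈ U, q := ⟨_, rfl⟩
  have hWR : W ∣ R := by rw [hR]; exact dvd_mul_right _ _
  have hUR : ∀ q ∈ U, q ∣ R := fun q hq => by
    rw [hR]
    exact Dvd.dvd.mul_left (Finset.dvd_prod_of_mem (fun q => q) hq) W
  refine ⟨R, U.powerset.image fun J => ∏ q ∈ J, q, ?_, hW₀W.trans hWR, ?_, ?_,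
    max (max Bt (max 1 Bi)) (max (Finset.univ.sup Bf) (4 ^ N₀)), fun B hB => ?_⟩
  · rw [hR]
    exact Nat.mul_pos hW0 (Finset.prod_pos fun q hq => (hUp q hq).pr.pos)
  · rw [Finset.mem_image]
    exact ⟨∅, Finset.empty_mem_powerset _, rfl⟩
  · intro D hD
    rw [Finset.mem_image] at hD
    obtain ⟨J, hJ, rfl⟩ := hD
    rw [Finset.mem_powerset] at hJ
    refine ⟨?_, ?_, ?_⟩
    · refine Finset.squarefree_prod_of_pairwise_isCoprime ?_ fun q hq => (hUp q (hJ hq)).pr.squarefree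
      intro q hq q' hq' hne
      exact Nat.coprime_iff_isRelPrime.1 ((Nat.coprime_primes (hUp q (hJ hq)).pr
        (hUp q' (hJ hq')).pr).2 hne)
    · have h1 := hmod J hJ
      have h2 : 8 * W₀ ∣ 8 * W := Nat.mul_dvd_mul_left 8 hW₀W
      have h3 : (∏ q ∈ J, q) ≡ 1 [MOD 8 * W] := h1
      exact h3.of_dvd h2
    · exact Finset.prod_primes_dvd R (fun q hq => Nat.prime_iff.1 (hUp q (hJ hq)).pr)
        fun q hq => hUR q (hJ hq)
  · have hBt : Bt ≤ B := ((le_max_left _ _).trans (le_max_left _ _)).trans hB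
    have hB1' : 1 ≤ B := (((le_max_left _ _).trans (le_max_right _ _)).trans (le_max_left _ _)).trans hB
    have hBi : Bi ≤ B := (((le_max_right _ _).trans (le_max_right _ _)).trans (le_max_left _ _)).trans hB
    have hBf' : ∀ i, Bf i ≤ B := fun i => ((Finset.le_sup (f := Bf) (Finset.mem_univ i)).trans
      ((le_max_left _ _).trans (le_max_right _ _))).trans hB
    have hBN : 4 ^ N₀ ≤ B := ((le_max_right _ _).trans (le_max_right _ _)).trans hB
    obtain ⟨hfin, hT⟩ := hT B hBt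
    have hI := hI B hBi
    refine ⟨hfin, ?_⟩
    obtain ⟨B₁, hB₁⟩ : ∃ B₁ : ℕ, B₁ = c * B := ⟨_, rfl⟩
    have hB₁B : B ≤ B₁ := by rw [hB₁]; exact Nat.le_mul_of_pos_left _ hc0
    have hB₁0 : 1 ≤ B₁ := hB1'.trans hB₁B
    obtain ⟨N, hNa, hNb⟩ : ∃ N : ℕ, 2 ^ κ * B₁ ≤ 4 ^ N ∧ 4 ^ N ≤ 4 * (2 ^ κ * B₁) := by
      refine ⟨Nat.log 4 (2 ^ κ * B₁) + 1, (Nat.lt_pow_succ_log_self (by norm_num) _).le, ?_⟩
      rw [pow_succ, mul_comm]
      refine Nat.mul_le_mul_left 4 (Nat.pow_log_le_self 4 ?_)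
      positivity
    have hNN : N₀ ≤ N := by
      have e1 : 4 ^ N₀ ≤ 4 ^ N := (hBN.trans hB₁B).trans
        (le_trans (Nat.le_mul_of_pos_left _ (by positivity)) hNa)
      exact (Nat.pow_le_pow_iff_right (by norm_num)).1 e1
    obtain ⟨hDf, hD⟩ := hN₀ N hNN
    -- the sets
    obtain ⟨E₀, hE₀⟩ : ∃ E₀ : Set (𝓞 F)[X], E₀ = {f : (𝓞 F)[X] | Ht g B f ∧ ¬ Irreducible (fF f)} :=
      ⟨_, rfl⟩
    obtain ⟨E₁, hE₁⟩ : ∃ E₁ : Set (𝓞 F)[X], E₁ = {f : (𝓞 F)[X] | Ht g B f ∧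
      ∃ v : HeightOneSpectrum (𝓞 F), Mt < nv v ∧ dsc g f ∈ v.asIdeal ^ 2 ∧
      ¬ ((c * B) ^ Module.finrank ℚ F ≤ Ideal.absNorm v.asIdeal ^ 2 ∧ Weak v.asIdeal f)} := ⟨_, rfl⟩
    obtain ⟨E₂, hE₂⟩ : ∃ E₂ : Fin k → Set (𝓞 F)[X], E₂ = fun (i : Fin k) => {f : (𝓞 F)[X] | Ht g B f ∧
      (((Bl i).filter fun q => Gq q (qq F W q) f).card : ℝ) <
        9 / 10 * ∑ q ∈ Bl i, dl g q (qq F W q)} := ⟨_, rfl⟩
    obtain ⟨E₃, hE₃⟩ : ∃ E₃ : Set (𝓞 F)[X], E₃ = {f : (𝓞 F)[X] | Pol g f ∧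
      (∀ i : Fin k, 9 / 10 * ∑ q ∈ Bl i, dl g q (qq F W q) ≤
      (((Bl i).filter fun q => Gq q (qq F W q) f).card : ℝ)) ∧
      ∀ τ : Fin k → ℕ, (∀ i : Fin k, τ i ∈ Bl i) →
        (∀ i : Fin k, Gq (τ i) (qq F W (τ i)) f) →
        BadS g N κ (Finset.univ.image τ) (qq F W) f} := ⟨_, rfl⟩
    obtain ⟨E₄, hE₄⟩ : ∃ E₄ : Set (𝓞 F)[X], E₄ = {f : (𝓞 F)[X] | Ht g B f ∧
      f.scaleRoots (c : 𝓞 F) ∈ E₃} := ⟨_, rfl⟩
    rw [← hE₀] at hI
    rw [← hE₁] at hT
    rw [← hE₃] at hD hDf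
    have hsub : {f : (𝓞 F)[X] | Ht g B f ∧ ¬ Tws R (U.powerset.image fun J => ∏ q ∈ J, q) f} ⊆
        (E₁ ∪ ⋃ i : Fin k, E₂ i) ∪ (E₀ ∪ E₄) := by
      rintro f ⟨hHt, hTw⟩
      by_contra hcon
      rw [Set.mem_union, Set.mem_union, Set.mem_union, not_or, not_or, not_or] at hcon
      obtain ⟨⟨hc1, hc2⟩, hc0', hc3⟩ := hcon
      obtain ⟨hP1, hHt1, hGq1, hds1, hwk1, hirr1⟩ := hSCG F g hg c f hc0 (pol_of_ht hHt)
      obtain ⟨f₁, hf₁⟩ : ∃ f₁, f₁ = f.scaleRoots (c : 𝓞 F) := ⟨_, rfl⟩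
      rw [← hf₁] at hP1 hds1 hwk1 hirr1
      have hirr : Irreducible (fF f) := by
        by_contra hni
        apply hc0'
        rw [hE₀]
        exact ⟨hHt, hni⟩
      have hHt₁ : Ht g B₁ f₁ := by rw [hB₁, hf₁]; exact hHt1 B hHt
      have hGqi : ∀ q ∈ U, (Gq q (qq F W q) f₁ ↔ Gq q (qq F W q) f) := by
        intro q hq
        rw [hf₁]
        exact hGq1 q (qq F W q) (hUp q hq).pr (hqc q hq) (hUp q hq).qp (hUp q hq).mem
      have hBlU : ∀ i : Fin k, Bl i ⊆ U := by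
        intro i q hq
        rw [hU, Finset.mem_biUnion]
        exact ⟨i, Finset.mem_univ _, hq⟩
      have hc2' : ∀ i : Fin k, 9 / 10 * ∑ q ∈ Bl i, dl g q (qq F W q) ≤
          (((Bl i).filter fun q => Gq q (qq F W q) f₁).card : ℝ) := by
        intro i
        have e : ((Bl i).filter fun q => Gq q (qq F W q) f₁) =
            ((Bl i).filter fun q => Gq q (qq F W q) f) :=
          Finset.filter_congr fun q hq => hGqi q (hBlU i hq)
        rw [e]
        by_contra hlt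
        apply hc2
        rw [Set.mem_iUnion]
        refine ⟨i, ?_⟩
        rw [hE₂]
        exact ⟨hHt, not_le.1 hlt⟩
      have hc3' : f₁ ∉ E₃ := fun h => hc3 (by rw [hE₄]; exact ⟨hHt, by rw [← hf₁]; exact h⟩)
      rw [hE₃, Set.mem_setOf_eq, not_and, not_and] at hc3'
      have hc4 := hc3' hP1 hc2'
      push Not at hc4
      obtain ⟨τ, hτ1, hτ2, hτ3⟩ := hc4
      have hSU : Finset.univ.image τ ⊆ U := by
        intro q hq
        rw [Finset.mem_image] at hq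
        obtain ⟨i, -, rfl⟩ := hq
        rw [hU, Finset.mem_biUnion]
        exact ⟨i, Finset.mem_univ _, hτ1 i⟩
      obtain ⟨J, hJ, hgood⟩ := hκ B₁ N W (Finset.univ.image τ) (qq F W) f f₁ (by omega) hW0 h2W
        (by omega) (fun q hq => hUp q (hSU hq)) (by rw [hf₁, hc]) (pol_of_ht hHt) hirr hHt₁
        (fun q hq => by
          rw [Finset.mem_image] at hq
          obtain ⟨i, -, rfl⟩ := hq
          exact hτ2 i) (fun v hv hdv => by
          have hcv : (c : 𝓞 F) ∉ v.asIdeal := by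
            intro h
            apply hv
            rw [hc, Nat.cast_pow] at h
            have h1 := v.isPrime.mem_of_pow_mem _ h
            rw [Nat.cast_mul] at h1
            rcases v.isPrime.mem_or_mem h1 with h2 | h2
            · obtain ⟨m, hm⟩ := h2W
              rw [hm, Nat.cast_mul]
              exact Ideal.mul_mem_right _ _ h2
            · exact h2
          have hdv' := hds1 v hcv hdv
          by_contra hnot
          apply hc1
          rw [hE₁]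
          refine ⟨hHt, v, ?_, hdv', fun h => hnot ⟨?_, hwk1 v hcv h.2⟩⟩
          · by_contra hle'
            apply hv
            have h1 : (nv v : 𝓞 F) ∈ v.asIdeal := Ideal.absNorm_mem v.asIdeal
            have h2 : nv v ∣ W := by
              rw [hW]
              refine Dvd.dvd.mul_left (Nat.dvd_factorial ?_ (by omega)) _
              refine Nat.pos_of_ne_zero fun h0 => ?_
              have h3 := Ideal.absNorm_eq_zero_iff.1 h0
              exact v.ne_bot h3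
            obtain ⟨m, hm⟩ := h2
            rw [hm, Nat.cast_mul]
            exact Ideal.mul_mem_right _ _ h1
          · rw [hB₁]
            exact h.1) hNa hB₁0 hτ3 (hirr1 hirr) R hWR (fun q hq => hUR q (hSU hq))
      apply hTw
      refine ⟨∏ q ∈ J, q, Finset.mem_image.2 ⟨J, Finset.mem_powerset.2 (hJ.trans hSU), rfl⟩, ?_⟩
      intro M _ _ _ _ n hn hM
      have hmo : (f.scaleRoots ((∏ q ∈ J, q : ℕ) : 𝓞 F)).Monic := (monic_scaleRoots_iff _).2 hHt.mon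
      refine hSEL M (fo M (f.scaleRoots ((∏ q ∈ J, q : ℕ) : 𝓞 F))) (2 * W) (by positivity) ?_ ?_ ?_
      · exact hmo.map _
      · unfold fo
        rw [hmo.natDegree_map, natDegree_scaleRoots, hHt.deg]
        exact ⟨g, rfl⟩
      · have h1 := hgood M n hn hM
        rw [fo_scale hmo, ← scaleRoots_mul, mul_comm, scaleRoots_mul, ← hc, ← hf₁,
          ← fo_scale hP1.mon]
        exact h1
    have hE0f : E₀.Finite := hfin.subset (by rw [hE₀]; exact fun f hf => hf.1)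
    have hE1f : E₁.Finite := hfin.subset (by rw [hE₁]; exact fun f hf => hf.1)
    have hE2f : ∀ i, (E₂ i).Finite := fun i => hfin.subset (by rw [hE₂]; exact fun f hf => hf.1)
    have hE4f : E₄.Finite := hfin.subset (by rw [hE₄]; exact fun f hf => hf.1)
    have hE2u : (⋃ i : Fin k, E₂ i).Finite := Set.finite_iUnion hE2f
    have hE43 : E₄.ncard ≤ E₃.ncard := by
      refine Set.ncard_le_ncard_of_injOn (fun f => f.scaleRoots (c : 𝓞 F)) ?_ ?_ hDf
      · intro f hf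
        rw [hE₄] at hf
        exact hf.2
      · intro f hf f' hf' h
        rw [hE₄] at hf hf'
        exact scale_inj hc0 (pol_of_ht hf.1) (pol_of_ht hf'.1) h
    -- counting
    obtain ⟨X, hX⟩ : ∃ X : ℝ, X = (B : ℝ) ^ (d * dd g) := ⟨_, rfl⟩
    have hX0 : 0 ≤ X := by rw [hX]; positivity
    rw [← hd, ← hX] at hT hI ⊢
    have hc2 : ∀ i : Fin k, ((E₂ i).ncard : ℝ) ≤ ε / (4 * (k + 1)) * X := by
      intro i
      have h1 := hBf i B (hBf' i)
      rw [← hd, ← hX] at h1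
      rw [hE₂]
      exact h1
    have hc2u : ((⋃ i : Fin k, E₂ i).ncard : ℝ) ≤ ε / 4 * X := by
      have h1 : (⋃ i : Fin k, E₂ i).ncard ≤ ∑ i : Fin k, (E₂ i).ncard := by
        have h2 : (⋃ i : Fin k, E₂ i) = ⋃ i ∈ (Finset.univ : Finset (Fin k)), E₂ i := by simp
        rw [h2]
        exact Pool.Agent.N270.PJ.ncard_biUnion_le E₂ Finset.univ
      have h2 : (((⋃ i : Fin k, E₂ i).ncard : ℕ) : ℝ) ≤ ∑ i : Fin k, ((E₂ i).ncard : ℝ) := by
        exact_mod_cast h1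
      refine h2.trans ((Finset.sum_le_sum fun i _ => hc2 i).trans ?_)
      rw [Finset.sum_const, Finset.card_univ, Fintype.card_fin, nsmul_eq_mul]
      have hk0 : (0 : ℝ) < k + 1 := by positivity
      have h3 : (k : ℝ) * (ε / (4 * (k + 1)) * X) = (k / (k + 1)) * (ε / 4 * X) := by
        field_simp
      rw [h3]
      have h4 : (k : ℝ) / (k + 1) ≤ 1 := by
        rw [div_le_one hk0]
        linarith
      have h5 : 0 ≤ ε / 4 * X := by positivity
      nlinarith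
    have hc3 : (E₃.ncard : ℝ) ≤ ε / 4 * X := by
      have h1 : (9 : ℝ) ^ k * E₃.ncard ≤ 5 ^ k * (C * 2 ^ (d * (2 * N * dd g))) := by
        rw [hd]
        exact_mod_cast hD
      have h2 : (2 : ℝ) ^ (d * (2 * N * dd g)) ≤ (4 * 2 ^ κ * c) ^ (d * dd g) * X := by
        have h3 : (4 : ℝ) ^ N ≤ 4 * 2 ^ κ * c * B := by
          have : ((4 ^ N : ℕ) : ℝ) ≤ ((4 * (2 ^ κ * B₁) : ℕ) : ℝ) := by exact_mod_cast hNb
          rw [hB₁] at this
          push_cast at this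
          linarith
        calc (2 : ℝ) ^ (d * (2 * N * dd g)) = (4 ^ N) ^ (d * dd g) := by
              rw [show (4 : ℝ) = 2 ^ 2 by norm_num, ← pow_mul, ← pow_mul]
              congr 1
              ring
          _ ≤ (4 * 2 ^ κ * c * B) ^ (d * dd g) := pow_le_pow_left₀ (by positivity) h3 _
          _ = _ := by rw [mul_pow _ (B : ℝ), hX]
      have h9 : (0 : ℝ) < 9 ^ k := by positivity
      have h4 : (E₃.ncard : ℝ) ≤ (5 / 9) ^ k * (C * 2 ^ (d * (2 * N * dd g))) := by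
        rw [div_pow, div_mul_eq_mul_div, le_div_iff₀ h9]
        linarith
      refine h4.trans ?_
      calc (5 / 9 : ℝ) ^ k * (C * 2 ^ (d * (2 * N * dd g))) ≤
            (5 / 9 : ℝ) ^ k * (C * ((4 * 2 ^ κ * c) ^ (d * dd g) * X)) := by gcongr
        _ = (5 / 9 : ℝ) ^ k * A * X := by rw [hA]; ring
        _ ≤ ε / 4 * X := mul_le_mul_of_nonneg_right hk hX0
    have hc4 : (E₄.ncard : ℝ) ≤ ε / 4 * X := by
      refine le_trans ?_ hc3
      exact_mod_cast hE43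
    have h5 := Set.ncard_le_ncard hsub ((hE1f.union hE2u).union (hE0f.union hE4f))
    have h6 := Set.ncard_union_le (E₁ ∪ ⋃ i : Fin k, E₂ i) (E₀ ∪ E₄)
    have h7 := Set.ncard_union_le E₁ (⋃ i : Fin k, E₂ i)
    have h7' := Set.ncard_union_le E₀ E₄
    have h8 : (({f : (𝓞 F)[X] | Ht g B f ∧
        ¬ Tws R (U.powerset.image fun J => ∏ q ∈ J, q) f}.ncard : ℕ) : ℝ) ≤
        ((E₁.ncard : ℝ) + ((⋃ i : Fin k, E₂ i).ncard : ℝ)) + ((E₀.ncard : ℝ) + (E₄.ncard : ℝ)) := by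
      exact_mod_cast h5.trans (h6.trans (Nat.add_le_add h7 h7'))
    refine h8.trans ?_
    linarith

end Pool.Agent.H458.AG
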