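import Pool.Graph.R_pool_sql_team_seeded_63374d34.N783.PQ.Loc

/-!
# Project AG (helper458): lattices at the bad primes, definitions and statements of the local parts

`k` is a field with a discrete valuation `v` (values in `ℤᵐ⁰`, `π` a uniformizer), `f` a monic polynomial of
degree `2 g + 1`. `LocIm` (the image of the Jacobian of `y ^ 2 = f(x)`) is in `N783/PQ/Loc.lean` of the library
(`N783` etc.: directories of `Pool/Graph/R_pool_sql_team_seeded_63374d34/`).
-/

set_option autoImplicit false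
set_option linter.all false

open Polynomial Matrix
open scoped Classical

namespace Pool.Agent.H458.AG

open Pool.Agent.N352.PJ (Mt)
open Pool.Agent.N783.PQ (LocIm)

section

/-- The split symmetric matrix: ones on the antidiagonal. -/
def GA (g : ℕ) (k : Type) [Field k] : Mt g k := Matrix.of fun i j => if (i : ℕ) + j = 2 * g then 1 else 0

/-- The coefficient of `X ^ (2 g)` of the residue of degree at most `2 g`. -/
noncomputable def tp {k : Type} [Field k] {f : k[X]} (hf : f.Monic) (g : ℕ) : AdjoinRoot f →ₗ[k] k :=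
  (lcoeff k (2 * g)).comp (AdjoinRoot.modByMonicHom hf)

/-- A module over the integers which spans the vector space (it need not be bounded). -/
structure Sub {k : Type} [Field k] (v : Valuation k (WithZero (Multiplicative ℤ))) {V : Type}
    [AddCommGroup V] [Module k V] (M : Set V) : Prop where
  zero : 0 ∈ M
  add : ∀ x ∈ M, ∀ y ∈ M, x + y ∈ M
  smul : ∀ a : k, v a ≤ 1 → ∀ x ∈ M, a • x ∈ M
  span : ∀ x : V, ∃ a : k, a ≠ 0 ∧ a • x ∈ M

/-- The form is integral on `M`. -/
def Itg {k : Type} [Field k] (v : Valuation k (WithZero (Multiplicative ℤ))) {V : Type}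
    [AddCommGroup V] [Module k V] (B : LinearMap.BilinForm k V) (M : Set V) : Prop :=
  ∀ x ∈ M, ∀ y ∈ M, v (B x y) ≤ 1

/-- The discriminant of the form is `(-1) ^ g` up to squares. -/
def Dsc {k : Type} [Field k] {V : Type} [AddCommGroup V] [Module k V] (g : ℕ)
    (B : LinearMap.BilinForm k V) : Prop :=
  ∃ (b : Module.Basis (Fin (2 * g + 1)) k V) (s : k), s ≠ 0 ∧
    (Matrix.of fun i j => B (b i) (b j)).det = (-1) ^ g * s ^ 2

end

/-- **S_SPLIT** (an even integral lattice in a split space is in a standard unimodular lattice).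

Proof. Induction on `g`. For `g = 0` the space is a line `k e` with `B e e = s ^ 2`, `s ≠ 0`; take `Λ x = s * (coordinate)`,
then `x ∈ M` gives `(Λ x) ^ 2 = B x x` integral. Step: `B` is nondegenerate (the determinant is not zero). Let
`0 ≠ x₀ ∈ X`, by `Sub.span` we may take `x₀ ∈ M`. The values `v (B x₀ y)`, `y ∈ M`, are at most `1` and not all zero (`M`
spans, `B` nondegenerate); let the largest one be `exp (-m)`, attained at `y₀ ∈ M` (values in `ℤᵐ⁰`). Let
`x = π ^ (-m) x₀` and `M' = {z + a x | z ∈ M, v a ≤ 1}`. `M'` is again a `Sub`, integral (`B x z` is integral for `z ∈ M`,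
`B x x = 0`) and even: `B (z + a x) (z + a x) = B z z + 2 a B z x`. Let `y₁ = (B x y₀)⁻¹ y₀ ∈ M` (`B x y₀` is a unit), so
`B x y₁ = 1`, and `y = y₁ - (B y₁ y₁ / 2) x ∈ M'` (`B y₁ y₁ / 2` is integral): `B x y = 1`, `B y y = 0`. Let `V'` be the
orthogonal complement of `x`, `y`, of dimension `2 g - 1`; `V = k x ⊕ k y ⊕ V'` by
`z ↦ z' = z - B z y x - B z x y`, and `z ∈ M'` gives `z' ∈ M'` with integral `B z y`, `B z x`. The form on `V'` has the
discriminant `(-1) ^ (g - 1)` up to squares (change of basis; Gram matrix of `x`, `y`, basis of `V'` is block diagonal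
with a block of determinant `-1`). `X' = X ∩ {B · y = 0}` is in `V'` (`X` is orthogonal to `x ∈ X`) and has dimension `g - 1`
(`x ∈ X` is not orthogonal to `y`; if it is larger take a subspace). By induction for `V'`, `M' ∩ V'` there is `Λ'`; put
`Λ z = (B z y, Λ' z', B z x)`, i.e. `Λ z 0 = B z y`, `Λ z (i + 1) = Λ' z' i`, `Λ z (2 g) = B z x`. -/
def S_SPLIT : Prop := ∀ (g : ℕ) (k : Type) [Field k] (v : Valuation k (WithZero (Multiplicative ℤ)))
  (π : k), v π = WithZero.exp (-1 : ℤ) → (2 : k) ≠ 0 → ∀ (V : Type) [AddCommGroup V] [Module k V],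
  ∀ B : LinearMap.BilinForm k V, (∀ x y, B x y = B y x) → Dsc g B →
  ∀ X : Submodule k V, Module.finrank k X = g → (∀ x ∈ X, ∀ y ∈ X, B x y = 0) →
  ∀ M : Set V, Sub v M → Itg v B M → (∀ x ∈ M, v (B x x) ≤ v 2) →
  ∃ Λ : V ≃ₗ[k] (Fin (2 * g + 1) → k), (∀ x y, B x y = Λ x ⬝ᵥ (GA g k *ᵥ Λ y)) ∧
    ∀ x ∈ M, ∀ i, v (Λ x i) ≤ 1

/-- **S_MAX** (a maximal `T`-stable integral lattice contains `π` times its dual).

Proof. By Zorn's lemma there is a maximal element `M` among the `T`-stable integral `Sub`s which contain the given one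
(unions of chains are in the set). The dual `M' = {z | B z y integral for all y ∈ M}` contains `M` and is `T`-stable
(`B (T z) y = B z (T y)`) and a module over the integers. There is `m` with `π ^ m • M' ⊆ M`: let `b` be a basis of `V`
in `M` (scale), `z ∈ M'`, `B z (b i)` is integral, so the coordinates of `z` in the dual basis of `b` are integral, and the
finitely many elements of the dual basis are in `π ^ (-m) M` (`Sub.span`). Let `m` be minimal. If `m ≥ 2`, put
`j = (m + 1) / 2 < m` and `N = {x + π ^ j y | x ∈ M, y ∈ M'}`: `T`-stable, `B x (π ^ j y)` is integral, and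
`B (π ^ j y) (π ^ j y') = π ^ (2 j - m) B (π ^ m y) y'` is integral. So `N = M` by maximality and `π ^ j • M' ⊆ M`, a
contradiction. Hence `m ≤ 1`. -/
def S_MAX : Prop := ∀ (k : Type) [Field k] (v : Valuation k (WithZero (Multiplicative ℤ))) (π : k),
  v π = WithZero.exp (-1 : ℤ) → ∀ (V : Type) [AddCommGroup V] [Module k V] [FiniteDimensional k V]
  (B : LinearMap.BilinForm k V), (∀ x y, B x y = B y x) → (∀ x, (∀ y, B x y = 0) → x = 0) →
  ∀ T : V →ₗ[k] V, (∀ x y, B (T x) y = B x (T y)) →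
  (∃ M : Set V, Sub v M ∧ (∀ x ∈ M, T x ∈ M) ∧ Itg v B M) →
  ∃ M : Set V, Sub v M ∧ (∀ x ∈ M, T x ∈ M) ∧ Itg v B M ∧
    ∀ z, (∀ y ∈ M, v (B z y) ≤ 1) → π • z ∈ M

/-- **S_COMB** (a standard lattice, almost stable under `T`; assume `S_SPLIT` and `S_MAX`).

Proof. Let `M` be as in `S_MAX` (`B` is nondegenerate because of `Dsc`). The set `2 M = {2 x}` is a `Sub` and `B x x` is
divisible by `4` for `x ∈ 2 M`, so `S_SPLIT` gives `Λ` with integral `Λ x` for `x ∈ 2 M`. Let `z` have integral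
coordinates `Λ z`. For `y ∈ M`: `B (2 z) y = B z (2 y) = Λ z ⬝ᵥ (GA *ᵥ Λ (2 y))` is integral, so `π • 2 z ∈ M`,
`T (2 π z) ∈ M` and `4 π T z = 2 T (2 π z) ∈ 2 M` has integral coordinates. And `c = (4 π) * a` with `v a ≤ 1`. -/
def S_COMB : Prop := ∀ (g : ℕ) (k : Type) [Field k] (v : Valuation k (WithZero (Multiplicative ℤ)))
  (π : k), v π = WithZero.exp (-1 : ℤ) → (2 : k) ≠ 0 → v 2 ≤ 1 → ∀ (V : Type) [AddCommGroup V]
  [Module k V] [FiniteDimensional k V] (B : LinearMap.BilinForm k V), (∀ x y, B x y = B y x) → Dsc g B →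
  ∀ X : Submodule k V, Module.finrank k X = g → (∀ x ∈ X, ∀ y ∈ X, B x y = 0) →
  ∀ T : V →ₗ[k] V, (∀ x y, B (T x) y = B x (T y)) →
  (∃ M : Set V, Sub v M ∧ (∀ x ∈ M, T x ∈ M) ∧ Itg v B M) → ∀ c : k, v c ≤ v (4 * π) →
  ∃ Λ : V ≃ₗ[k] (Fin (2 * g + 1) → k), (∀ x y, B x y = Λ x ⬝ᵥ (GA g k *ᵥ Λ y)) ∧
    ∀ z, (∀ i, v (Λ z i) ≤ 1) → ∀ i, v (Λ (c • T z) i) ≤ 1

/-- **S_RED1** (reduction of binary quadratic forms over `k[x]` of discriminant `4 f`, Gauss).

Proof. Strong induction on the degree of `u`. Replacing `(t, w)` by `(t - q u, w - 2 q t + q ^ 2 u)` (that is `(c, b)` by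
`(c + q b, b)`; `t ^ 2 - u w` and the value `u c ^ 2 + 2 t c b + w b ^ 2` do not change) we may assume
`deg t < deg u` (division with remainder, `q = t / u`). If `deg u ≤ g` we are done. Otherwise `u w = t ^ 2 - f` has degree at most
`max (2 deg u - 2) (2 g + 1) < 2 deg u`, so `w = 0` (impossible: `f` has odd degree and is not a square) or
`deg w < deg u`; exchange: `(u, t, w; c, b) ↦ (w, t, u; b, c)`. -/
def S_RED1 : Prop := ∀ (k : Type) [Field k] (g : ℕ) (f u₀ t₀ w₀ : k[X]), f.Monic →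
  f.natDegree = 2 * g + 1 → t₀ ^ 2 - u₀ * w₀ = f → ∀ c₀ b₀ : k[X],
  ∃ u t w c b : k[X], t ^ 2 - u * w = f ∧ u ≠ 0 ∧ u.natDegree ≤ g ∧ t.degree < u.degree ∧
    u * c ^ 2 + 2 * t * c * b + w * b ^ 2 = u₀ * c₀ ^ 2 + 2 * t₀ * c₀ * b₀ + w₀ * b₀ ^ 2

/-- **S_RED2** (every class in the image of the Jacobian is a value of a form of discriminant `4 f`).

Proof. Show by induction on the list `l` of `LocIm`: there are `u, t, w` with `t ^ 2 - u w = f`, `u` coprime to `f`, and `s`
coprime to `f` with `f ∣ u * (product of the (-1) ^ deg p.1 * p.1) - s ^ 2`. For the empty list: `u = 1`, `t = 0`, `w = -f`.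
For a new pair `(U, V)`, `U ∣ V ^ 2 - f`, put `u₁ = (-1) ^ deg U * U`, `t₁ = V`, `w₁ = (V ^ 2 - f) / u₁`. The form `(u, t, w)`
is primitive (a common prime factor `p` of `u, t, w` gives `p ^ 2 ∣ f`), so for every one of the finitely many prime
factors `p` of `u₁ f` there are `c, b` modulo `p` with `p ∤ u c ^ 2 + 2 t c b + w b ^ 2` (one of `(1, 0)`, `(0, 1)`, `(1, 1)`;
`2 ≠ 0`), and by the Chinese remainder theorem there are `c, b` such that `u' = u c ^ 2 + 2 t c b + w b ^ 2` is coprime to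
`u₁ f`. With `a = u c + t b` one has `a ^ 2 - b ^ 2 f = u u'`. So `a ^ 2 ≡ u u' mod f` (`a` coprime to `f`), and
`u' ∣ t' ^ 2 - f` for some `t'`: `b` is coprime to `u'`?  Not always; choose `c, b` coprime (if `d = gcd(c, b)` replace them by
`c / d`, `b / d`: the value is divided by `d ^ 2`), then a common prime `p` of `b` and `u'` divides `u c ^ 2`, hence `u`; avoid
it: the polynomial `t'` is obtained from the change of basis `(c, b), (c', b')` with `c b' - c' b = 1`:
`t' = u c c' + t (c b' + c' b) + w b b'`, `w' = u c' ^ 2 + 2 t c' b' + w b' ^ 2`, and `t' ^ 2 - u' w' = (t ^ 2 - u w) = f`.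
Now `u'` and `u₁` are coprime: choose `t'' ≡ t' mod u'`, `t'' ≡ t₁ mod u₁` (Chinese remainder theorem); then
`u' u₁ ∣ t'' ^ 2 - f`, so the form `(u' u₁, t'', w'')` has the required properties: `(u' u₁) * (u₁ * product) ≡
u' * product * u₁ ^ 2`, and `u * u' * (u * product) = (a s) ^ 2`, so `u' * product * u ^ 2 ≡ (a s) ^ 2`, divide by `u ^ 2`.
At the end `f ∣ h * product - s₀ ^ 2` and `f ∣ u * product - s ^ 2` give `h * u ≡ (s₀ s / product) ^ 2`, and this is a square of an
element coprime to `f` (`s₀` is coprime to `f` because `h` and `product` are). -/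
def S_RED2 : Prop := ∀ (k : Type) [Field k] [CharZero k] (f h : k[X]), f.Monic → Squarefree f →
  IsCoprime h f → LocIm k f h →
  ∃ u t w s : k[X], t ^ 2 - u * w = f ∧ IsCoprime u f ∧ IsCoprime s f ∧ f ∣ h * u - s ^ 2

/-- **S_ISO** (an isotropic subspace of dimension `g`).

Proof. Let `m = deg u`, `a = u c + t b`, `e = t c + w b`, `H = u c ^ 2 + 2 t c b + w b ^ 2`. Identities (`t ^ 2 - u w = f`):
`a ^ 2 - H u = b ^ 2 f`, `a e - H t = - b c f`, `e ^ 2 - H w = c ^ 2 f`. Let `X` be the image of the pairs `(p, r)` of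
polynomials of degrees `< (2 g - m + 1) / 2` and `< m / 2` (integer parts; `Polynomial.degreeLT`) under
`(p, r) ↦ a p + e r mod f`; the sum of the dimensions is `g`. Isotropic: if `z H = (a p + e r) (a p' + e r')` then
`z H = H (u p p' + t (p r' + p' r) + w r r')` modulo `f`, and `H` is a unit modulo `f`, so `z` is the class of the polynomial
`u p p' + t (p r' + p' r) + w r r'` of degree less than `2 g` (`deg t < m`, `deg w = 2 g + 1 - m` because
`deg t ^ 2 ≤ 2 g - 2`), so `tp z = 0`. Injective: if `a p + e r ≡ 0`, multiply by `a`: `H (u p + t r) ≡ 0`, so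
`f ∣ u p + t r`, of degree less than `2 g + 1`, so `u p + t r = 0`; multiply by `e`: `t p + w r = 0` in the same way; so
`f r = t (u p + t r) - u (t p + w r) = 0`, `r = 0`, `u p = 0`, `p = 0`. -/
def S_ISO : Prop := ∀ (k : Type) [Field k] (g : ℕ) (f u t w c b : k[X]) (hf : f.Monic), 1 ≤ g →
  f.natDegree = 2 * g + 1 → t ^ 2 - u * w = f → u ≠ 0 → u.natDegree ≤ g → t.degree < u.degree →
  IsCoprime (u * c ^ 2 + 2 * t * c * b + w * b ^ 2) f →
  ∃ X : Submodule k (AdjoinRoot f), Module.finrank k X = g ∧ ∀ x ∈ X, ∀ y ∈ X, ∀ z : AdjoinRoot f,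
    z * AdjoinRoot.mk f (u * c ^ 2 + 2 * t * c * b + w * b ^ 2) = x * y → tp hf g z = 0

/-- **S_LAT** (a standard lattice for every class in the image of the Jacobian; assume `S_COMB`, `S_RED1`, `S_RED2`,
`S_ISO`).

Proof. `V = AdjoinRoot f` with the form `B x y = tp (x y β)`, `β = mk h`, `T` = multiplication by the root. `S_RED2` gives
`u, t, w, s`, `S_RED1` with `(c₀, b₀) = (1, 0)` gives the reduced form with the same value `u` (now called `H`); `h H ≡ s ^ 2`.
`S_ISO` gives `X`; take `X' = s⁻¹ X` (`s` is a unit modulo `f`): for `x, y ∈ X`, `z = s⁻¹ x s⁻¹ y h` has `z H = x y`, so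
`B (s⁻¹ x) (s⁻¹ y) = 0`. `Dsc`: in the basis `θ ^ i` (power basis of the monic `f`) the Gram matrix is the product of the
(transpose of the) matrix of the multiplication by `β` and of the matrix `tp (θ ^ (i + j))`, which is zero for `i + j < 2 g` and one
for `i + j = 2 g`, of determinant `(-1) ^ (g (2 g + 1)) = (-1) ^ g`; so the determinant is `(-1) ^ g * norm β`, and
the norm of the unit `β` is a non-zero square. Stable integral lattice: the integral combinations of `a θ ^ i` for a small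
`a ≠ 0` (`f` has integral coefficients, so they are stable under `θ`; `a` makes the finitely many
`tp (a θ ^ i a θ ^ j β)` integral). `B (T x) y = B x (T y)` is clear. `v 2 ≤ 1` for every valuation (`2 = 1 + 1`). -/
def S_LAT : Prop := ∀ (k : Type) [Field k] [CharZero k] (v : Valuation k (WithZero (Multiplicative ℤ)))
  (π : k), v π = WithZero.exp (-1 : ℤ) → ∀ (g : ℕ) (f : k[X]) (hf : f.Monic), 1 ≤ g →
  f.natDegree = 2 * g + 1 → Squarefree f → (∀ j, v (f.coeff j) ≤ 1) → ∀ h : k[X], IsCoprime h f →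
  LocIm k f h → IsSquare (Algebra.norm k (AdjoinRoot.mk f h)) → ∀ c : k, v c ≤ v (4 * π) →
  ∃ Λ : AdjoinRoot f ≃ₗ[k] (Fin (2 * g + 1) → k),
    (∀ x y, tp hf g (x * y * AdjoinRoot.mk f h) = Λ x ⬝ᵥ (GA g k *ᵥ Λ y)) ∧
    ∀ z, (∀ i, v (Λ z i) ≤ 1) → ∀ i, v (Λ (c • (AdjoinRoot.root f * z)) i) ≤ 1

end Pool.Agent.H458.AG
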