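import Pool.Agent.H458.AU.Def
import Pool.Agent.H458.AG.Loc
import Pool.Agent.H459.UT.Cpt

/-!
# Project AG (helper458): every odd hyperelliptic curve of genus `g`, up to a proportion `ε`, has a twist
with zero 2-Selmer group in a finite set of twists; definitions and statements of the parts

The version for all `g ≥ 1` of the project AU (`H458/AU`, complete and on origin/main, `g = 1`). `F` is any number field,
`D = [F : ℚ]`. `Ht`, `GoodS`, `LBad`, `Cg`, `sp`, `rd`, `Weak`, `dsc` are in `N783/PF/Def.lean` of the library, `Bx`, `Bz`,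
`nv`, `dg` in `N352/PF/Cnt.lean`. `PrQ` is in `H458/AU/Def.lean`.
(`N783`, `N352`, `N951`: directories of `Pool/Graph/R_pool_sql_team_seeded_63374d34/`.)
-/

set_option autoImplicit false
set_option linter.all false

open Polynomial Matrix IsDedekindDomain NumberField
open scoped Classical

namespace Pool.Agent.H458.AG

open Pool.Agent.N783.PF (Bd Cg sp rd Ht GoodS LBad Weak dsc fF IsGen SelZero)
open Pool.Agent.N783.PF (S_BAD)
open Pool.Agent.N352.PF (nv dg Bx Bz S_BX S_STR S_WK S_PF S_SML)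
open Pool.Agent.N352.PJ (dis D2 dd)
open Pool.Agent.H458.AU (PrQ S_SMLR S_CHEB)
open Pool.Agent.H459.UT (LL)
open Pool.Agent.N874.JM (LocF)

section

variable {F : Type} [Field F] [NumberField F]

/-- The monic polynomials of degree `2 g + 1` without term of degree `2 g`. -/
structure Pol (g : ℕ) (f : (𝓞 F)[X]) : Prop where
  mon : f.Monic
  deg : f.natDegree = 2 * g + 1
  tr : f.coeff (2 * g) = 0

theorem pol_of_ht {g B : ℕ} {f : (𝓞 F)[X]} (h : Ht g B f) : Pol g f := ⟨h.mon, h.deg, h.tr⟩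

/-- The polynomial `f` is good at `q`: modulo the prime `𝔮` over `q` it is `X` times an irreducible polynomial,
and it is irreducible modulo the other primes over `q`. -/
def Gq (q : ℕ) (𝔮 : Ideal (𝓞 F)) (f : (𝓞 F)[X]) : Prop :=
  f.coeff 0 ∈ 𝔮 ∧ Irreducible (rd 𝔮 f.divX) ∧
  ∀ 𝔭 : Ideal (𝓞 F), 𝔭.IsPrime → (q : 𝓞 F) ∈ 𝔭 → 𝔭 ≠ 𝔮 → Irreducible (rd 𝔭 f)

/-- The residues of the coefficients modulo `q`. -/
noncomputable def mkr (g q : ℕ) (f : (𝓞 F)[X]) : Fin (2 * g) → 𝓞 F ⧸ sp F q :=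
  fun j => Ideal.Quotient.mk (sp F q) (f.coeff j)

/-- The good residues modulo `q`. -/
def GR (g q : ℕ) (𝔮 : Ideal (𝓞 F)) : Set (Fin (2 * g) → 𝓞 F ⧸ sp F q) :=
  {r | ∃ f : (𝓞 F)[X], Pol g f ∧ Gq q 𝔮 f ∧ r = mkr g q f}

/-- The proportion of the good residues modulo `q`. -/
noncomputable def dl (g q : ℕ) (𝔮 : Ideal (𝓞 F)) : ℝ :=
  ((GR g q 𝔮).ncard : ℝ) / (q : ℝ) ^ (2 * g * Module.finrank ℚ F)

theorem mkr_eq {g q : ℕ} {f f' : (𝓞 F)[X]} (hf : Pol g f) (hf' : Pol g f') :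
    mkr g q f = mkr g q f' ↔ Cg (sp F q) f f' := by
  constructor
  · intro h j
    rcases lt_trichotomy j (2 * g) with hj | hj | hj
    · exact Ideal.Quotient.eq.1 (congrFun h ⟨j, hj⟩)
    · rw [hj, hf.tr, hf'.tr, sub_zero]
      exact Ideal.zero_mem _
    · rcases Nat.lt_or_ge (2 * g + 1) j with h1 | h1
      · rw [coeff_eq_zero_of_natDegree_lt (by rw [hf.deg]; exact h1),
          coeff_eq_zero_of_natDegree_lt (by rw [hf'.deg]; exact h1), sub_zero]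
        exact Ideal.zero_mem _
      · have h2 : j = 2 * g + 1 := by omega
        have e1 := hf.mon.coeff_natDegree
        have e2 := hf'.mon.coeff_natDegree
        rw [hf.deg] at e1
        rw [hf'.deg] at e2
        rw [h2, e1, e2, sub_self]
        exact Ideal.zero_mem _
  · intro h
    funext j
    exact Ideal.Quotient.eq.2 (h j)

theorem rd_eq {𝔞 𝔭 : Ideal (𝓞 F)} (h : 𝔞 ≤ 𝔭) {f f' : (𝓞 F)[X]} (hc : Cg 𝔞 f f') :
    rd 𝔭 f = rd 𝔭 f' := by
  refine Polynomial.ext fun j => ?_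
  rw [coeff_map, coeff_map]
  exact Ideal.Quotient.eq.2 (h (hc j))

theorem Gq.congr {q : ℕ} {𝔮 : Ideal (𝓞 F)} (hq : (q : 𝓞 F) ∈ 𝔮) {f f' : (𝓞 F)[X]}
    (h : Cg (sp F q) f f') (hg : Gq q 𝔮 f) : Gq q 𝔮 f' := by
  have hle : ∀ 𝔭 : Ideal (𝓞 F), (q : 𝓞 F) ∈ 𝔭 → sp F q ≤ 𝔭 := fun 𝔭 hp => by
    rwa [sp, Ideal.span_singleton_le_iff_mem]
  obtain ⟨h1, h2, h3⟩ := hg
  refine ⟨?_, ?_, fun 𝔭 h4 h5 h6 => ?_⟩
  · have h4 := Ideal.sub_mem _ h1 (hle 𝔮 hq (h 0))
    rwa [sub_sub_cancel] at h4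
  · have h4 : Cg (sp F q) f.divX f'.divX := fun j => by
      rw [coeff_divX, coeff_divX]
      exact h _
    rwa [rd_eq (hle 𝔮 hq) h4] at h2
  · rw [← rd_eq (hle 𝔭 h5) h]
    exact h3 𝔭 h4 h5 h6

theorem mem_GR {g q : ℕ} {𝔮 : Ideal (𝓞 F)} (hq : (q : 𝓞 F) ∈ 𝔮) {f : (𝓞 F)[X]} (hf : Pol g f) :
    mkr g q f ∈ GR g q 𝔮 ↔ Gq q 𝔮 f := by
  constructor
  · rintro ⟨f', h1, h2, h3⟩
    exact h2.congr hq ((mkr_eq h1 hf).1 h3.symm)
  · intro h
    exact ⟨f, hf, h, rfl⟩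

end

/-! ### Counting -/

/-- **S_IRC** (irreducible polynomials of degree `n` without term of degree `n - 1` over a finite field).

Proof. Let `q = #k > n` and `k'` an extension of `k` of degree `n` (`GaloisField`, `FiniteField.Extension` or `AdjoinRoot` of
an irreducible polynomial). The trace `k' → k` is surjective and `k`-linear, so `q ^ (n - 1)` elements have trace zero. For
a proper divisor `d` of `n` the elements of trace zero of the subfield of degree `d` over `k` have trace zero over `k`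
(`(n / d) ≠ 0` in `k`), so there are `q ^ (d - 1)` of them. So at least
`q ^ (n - 1) - ∑_{d ≤ n / 2} q ^ (d - 1) ≥ q ^ (n - 1) / 2` elements have trace zero and degree `n` (`q > n ≥ 2`), their minimal
polynomials are as required, and every such polynomial has at most `n` zeros. -/
def S_IRC : Prop := ∀ (k : Type) [Field k] [Finite k] (n : ℕ), 2 ≤ n → (n.factorial : k) ≠ 0 →
  Nat.card k ^ (n - 1) ≤
    2 * n * {p : k[X] | p.Monic ∧ p.natDegree = n ∧ p.coeff (n - 1) = 0 ∧ Irreducible p}.ncard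

/-- **S_GC** (a lower bound for the number of good residues; assume `S_IRC`). As `H458/AU/Def.lean`, `S_GC` (proof for
`g = 1`: helper module `AU458/GC.lean` on origin/main, `git grep -l S_GC`).

Proof. `𝓞 F ⧸ (q) ≃ ∏ 𝓞 F ⧸ 𝔭` over the primes over `q` (`q` is unramified), the number of elements is `q ^ D`. The good
residues (`2 g` coefficients) correspond to: modulo `𝔮` (a field with `q` elements) the constant coefficient `0` and the
remaining coefficients those of an irreducible monic polynomial (`f.divX`) of degree `2 g` without term of degree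
`2 g - 1`: at least `q ^ (2 g - 1) / (4 g)` by `S_IRC`, and modulo the other `𝔭` the coefficients of an irreducible monic
polynomial of degree `2 g + 1` without term of degree `2 g`: at least `N(𝔭) ^ (2 g) / (2 (2 g + 1))`. There are at
most `D` primes over `q`. So `c = 1 / (4 g + 2) ^ D / (4 g)` or smaller can be taken. -/
def S_GC : Prop := ∀ (F : Type) [Field F] [NumberField F] (g : ℕ), 1 ≤ g → ∃ c : ℝ, 0 < c ∧
  ∀ (W q : ℕ) (𝔮 : Ideal (𝓞 F)), 0 < W → 2 * g + 1 ≤ W → PrQ W q 𝔮 → Ideal.absNorm 𝔮 = q →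
  c / q ≤ dl g q 𝔮

/-- **S_FIB** (polynomials in a box with given residues; assume `S_BX`). For `g = 1`: module `AU458/FIB.lean`.

Proof. Upper bound of `S_BX` of the library (`N352/PF/Cnt.lean`) for `W = ∏ q`, with the residues from the Chinese
remainder theorem (`Pool.Agent.N951.PF.crt`). -/
def S_FIB : Prop := ∀ (F : Type) [Field F] [NumberField F] (g : ℕ), 1 ≤ g → ∃ C : ℕ, 1 ≤ C ∧
  ∀ (S : Finset ℕ) (r : ∀ q : ℕ, Fin (2 * g) → 𝓞 F ⧸ sp F q) (B : ℕ), (∀ q ∈ S, q.Prime) →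
  C * ∏ q ∈ S, q ≤ B → {f : (𝓞 F)[X] | Ht g B f ∧ ∀ q ∈ S, mkr g q f = r q}.Finite ∧
  {f : (𝓞 F)[X] | Ht g B f ∧ ∀ q ∈ S, mkr g q f = r q}.ncard *
    (∏ q ∈ S, q) ^ (2 * g * Module.finrank ℚ F) ≤ C * B ^ (Module.finrank ℚ F * dd g)

/-- **S_IRR** (few reducible polynomials; assume `S_FIB` and `S_IRC`).

Proof. For a prime `q > 2 g + 1` which is unramified in `F` (or any prime `q > 2 g + 1`) let `𝔭` be a prime over `q`. If
`rd 𝔭 f` is irreducible then `fF f` is irreducible (Gauss's lemma: a factorization of the monic `f` over `F` is one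
over the integrally closed `𝓞 F`, `Polynomial.Monic.irreducible_iff_..`, and can be reduced). By `S_IRC` for `𝓞 F ⧸ 𝔭`
at least `1 / (2 (2 g + 1))` of the residues modulo `𝔭`, hence modulo `q` (the fibres of `𝓞 F ⧸ (q) → 𝓞 F ⧸ 𝔭` have the
same size), are those of irreducible polynomials. Let `c = 1 - 1 / (4 g + 2)` and `m` with `C c ^ m ≤ ε` (`C` of `S_FIB`), `S` a
set of `m` such primes `q`. If `f` is reducible its residue modulo every `q ∈ S` is one of at most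
`c q ^ (2 g D)`. By `S_FIB` there are at most `∏ (c q ^ (2 g D)) * C B ^ (D dd g) / ∏ q ^ (2 g D) ≤ ε B ^ (D dd g)`
reducible `f`. -/
def S_IRR : Prop := ∀ (F : Type) [Field F] [NumberField F] (g : ℕ), 1 ≤ g → ∀ ε : ℝ, 0 < ε →
  ∃ B₀ : ℕ, ∀ B ≥ B₀, (({f : (𝓞 F)[X] | Ht g B f ∧ ¬ Irreducible (fF f)}.ncard : ℝ)) ≤
    ε * (B : ℝ) ^ (Module.finrank ℚ F * dd g)

/-- **S_TAIL** (the discriminants divisible by the square of a prime which is not small; assume `S_SMLR`, `S_BX`,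
`S_STR`, `S_WK`, `S_PF`). `M` does not depend on `c`.

Proof. As `AU458/TAIL.lean` (`g = 1`, `c = 1`) and `H459/UT/Fam.lean`, theorem `famT` (general `g`), with `W = 1`, `A = 0`:
(1) by `S_SMLR` with `R` large (depending on `ε`, upper bound of `S_BX` for all) the polynomials of height `≤ B` for
which there is `v` with `M < nv v`, `nv v ^ 2 < B ^ D` and `dsc ∈ v ^ 2` are at most `ε / 4` of `B ^ (D dd g)`;
(2) by `S_SMLR` with `R₁` large (depending on `ε` and `c`) and `B₁ = c B` the polynomials of height `≤ B` (they are of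
height `≤ B₁`) for which there is `v` with `M₁ < nv v`, `nv v ^ 2 < (c B) ^ D`, `dsc ∈ v ^ 2` are at most
`ε / 4 / c ^ (D dd g) * (c B) ^ (D dd g)`; this covers all `v` with `B ^ D ≤ nv v ^ 2 < (c B) ^ D` as soon as
`B ^ D > M₁ ^ 2`; (3) by `S_STR` for the boxes of height `c B` (with a small `ε'`) the polynomials with a `v` with
`(c B) ^ D ≤ nv v ^ 2`, `dsc ∈ v`, `D2 ∈ v` are few; and by `S_WK` in the other cases `f` is weakly divisible (`M` is so
large that `(2 g + 1)!` is not in `v`, by `S_PF`). `Bz`, `pol`, `dis` of the library versus `Ht`, `dsc`: see `famT` (`ht_pol`,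
`bz_coeff`, `eq_pol`, `pol_inj` of `N951/PF/Fam.lean`). -/
def S_TAIL : Prop := ∀ (F : Type) [Field F] [NumberField F] (g : ℕ), 1 ≤ g → ∀ ε : ℝ, 0 < ε →
  ∃ M : ℕ, ∀ c : ℕ, 0 < c → ∃ B₀ : ℕ, ∀ B ≥ B₀, {f : (𝓞 F)[X] | Ht g B f}.Finite ∧
  (({f : (𝓞 F)[X] | Ht g B f ∧ ∃ v : HeightOneSpectrum (𝓞 F), M < nv v ∧
    dsc g f ∈ v.asIdeal ^ 2 ∧ ¬ ((c * B) ^ Module.finrank ℚ F ≤ Ideal.absNorm v.asIdeal ^ 2 ∧
      Weak v.asIdeal f)}.ncard : ℝ)) ≤ ε * (B : ℝ) ^ (Module.finrank ℚ F * dd g)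

/-- **S_FEW** (few polynomials are good at few primes; assume `S_FIB` and `S_CHEB`). For `g = 1`: `AU458/FEW.lean`.

Proof. The map `f ↦ (mkr g q f)_{q ∈ T}` to the product of the finite sets of `q ^ (2 g D)` elements has by `S_FIB` at
most `C B ^ (D dd g) / ∏ q ^ (2 g D)` elements in each fibre, `Gq` depends on the image only (`mem_GR`), and by
`S_CHEB` at most `100 / M * ∏ q ^ (2 g D)` elements of the product are good at less than `9 / 10 * M` places. -/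
def S_FEW : Prop := ∀ (F : Type) [Field F] [NumberField F] (g : ℕ), 1 ≤ g → ∀ ε : ℝ, 0 < ε →
  ∃ M₁ : ℝ, 0 < M₁ ∧ ∀ (W : ℕ) (T : Finset ℕ) (𝔮 : ℕ → Ideal (𝓞 F)), (∀ q ∈ T, PrQ W q (𝔮 q)) →
  M₁ ≤ ∑ q ∈ T, dl g q (𝔮 q) → ∃ B₀ : ℕ, ∀ B ≥ B₀,
  (({f : (𝓞 F)[X] | Ht g B f ∧ ((T.filter fun q => Gq q (𝔮 q) f).card : ℝ) <
    9 / 10 * ∑ q ∈ T, dl g q (𝔮 q)}.ncard : ℝ)) ≤ ε * (B : ℝ) ^ (Module.finrank ℚ F * dd g)

/-- The polynomials which are bad with respect to their own residues at `S`. -/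
def BadS {F : Type} [Field F] [NumberField F] (g N κ : ℕ) (S : Finset ℕ) (𝔮 : ℕ → Ideal (𝓞 F))
    (f : (𝓞 F)[X]) : Prop :=
  LBad g N κ S 𝔮 (fun _ => f) f

/-- **S_BDS** (the number of the bad polynomials which are good at all primes in `S`; assume `S_BAD`). For `g = 1`:
`AU458/BDS.lean`.

Proof. For every choice `ρ` of a good residue `ρ q ∈ GR g q (𝔮 q)` for all `q ∈ S` choose `P q` with `Pol g (P q)`,
`Gq q (𝔮 q) (P q)`, `ρ q = mkr g q (P q)`, and put `h q = (P q).divX` (`P q = X * divX + C (coeff 0)`, monic of degree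
`2 g`). Then `GoodS g W S 𝔮 h P` holds (`PrQ.mod8`, `2 g + 1 ≤ W < q`), and for `f` with these residues
`BadS g N κ S 𝔮 f` implies `LBad g N κ S 𝔮 P f` (only `rd 𝔭 (P q) = rd 𝔭 f` for the primes `𝔭` over `q` is used in
`Xset`). So the set is contained in the union over the `ρ` of the sets of `S_BAD`; `N₀` is the maximum over the finitely
many `ρ`. -/
def S_BDS : Prop := ∀ (F : Type) [Field F] [NumberField F] (g κ : ℕ), 1 ≤ g → ∃ C K : ℕ,
  ∀ (W : ℕ) (S : Finset ℕ) (𝔮 : ℕ → Ideal (𝓞 F)), K ≤ W → 0 < W → 2 * g + 1 ≤ W →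
  (∀ q ∈ S, PrQ W q (𝔮 q)) → ∃ N₀ : ℕ, ∀ N ≥ N₀,
  {f : (𝓞 F)[X] | Pol g f ∧ (∀ q ∈ S, Gq q (𝔮 q) f) ∧ BadS g N κ S 𝔮 f}.Finite ∧
  2 ^ S.card * (∏ q ∈ S, q) ^ (2 * g * Module.finrank ℚ F) *
    {f : (𝓞 F)[X] | Pol g f ∧ (∀ q ∈ S, Gq q (𝔮 q) f) ∧ BadS g N κ S 𝔮 f}.ncard ≤
    C * (∏ q ∈ S, (GR g q (𝔮 q)).ncard) * 2 ^ (Module.finrank ℚ F * (2 * N * dd g))

/-- **S_DC** (double counting; assume `S_BDS`). For `g = 1`: `AU458/DC.lean`. `Bl 0, ..., Bl (k - 1)` are disjoint sets of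
primes; few polynomials with many good primes in every block are bad for all the transversals of good primes.

Proof. Let `𝓑` be the set and let `m i = #{q ∈ Bl i | f good at q} ≥ 9 / 10 * M i`, `M i = ∑_{q ∈ Bl i} dl q`. Every
`f ∈ 𝓑` is, for each of the `∏ m i` transversals `τ` of its good primes, in the set of `S_BDS` for
`S = {τ 0, ..., τ (k - 1)}` (`k` elements, the blocks are disjoint). So
`∏ (9 / 10 * M i) * #𝓑 ≤ ∑_τ C ∏_i (dl (τ i) / 2) 2 ^ (..) = C ∏_i (M i / 2) 2 ^ (..)`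
(`Finset.prod_univ_sum`), sum over all `τ ∈ Fintype.piFinset Bl`. Divide by `∏ M i > 0` and multiply by `10 ^ k`. -/
def S_DC : Prop := ∀ (F : Type) [Field F] [NumberField F] (g κ : ℕ), 1 ≤ g → ∃ C K : ℕ,
  ∀ (W k : ℕ) (Bl : Fin k → Finset ℕ) (𝔮 : ℕ → Ideal (𝓞 F)), K ≤ W → 0 < W → 2 * g + 1 ≤ W →
  (∀ i, ∀ q ∈ Bl i, PrQ W q (𝔮 q)) → (∀ i j, i ≠ j → Disjoint (Bl i) (Bl j)) →
  (∀ i, 0 < ∑ q ∈ Bl i, dl g q (𝔮 q)) →
  ∃ N₀ : ℕ, ∀ N ≥ N₀,
  {f : (𝓞 F)[X] | Pol g f ∧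
    (∀ i, 9 / 10 * ∑ q ∈ Bl i, dl g q (𝔮 q) ≤
      (((Bl i).filter fun q => Gq q (𝔮 q) f).card : ℝ)) ∧
    ∀ τ : Fin k → ℕ, (∀ i, τ i ∈ Bl i) → (∀ i, Gq (τ i) (𝔮 (τ i)) f) →
      BadS g N κ (Finset.univ.image τ) 𝔮 f}.Finite ∧
  9 ^ k * {f : (𝓞 F)[X] | Pol g f ∧
    (∀ i, 9 / 10 * ∑ q ∈ Bl i, dl g q (𝔮 q) ≤
      (((Bl i).filter fun q => Gq q (𝔮 q) f).card : ℝ)) ∧
    ∀ τ : Fin k → ℕ, (∀ i, τ i ∈ Bl i) → (∀ i, Gq (τ i) (𝔮 (τ i)) f) →
      BadS g N κ (Finset.univ.image τ) 𝔮 f}.ncard ≤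
    5 ^ k * (C * 2 ^ (Module.finrank ℚ F * (2 * N * dd g)))

/-! ### Scaling, transfer -/

/-- **S_SCG** (good primes and scaling).

Proof. `(f.scaleRoots c).coeff j = f.coeff j * c ^ (2 g + 1 - j)`. Modulo a prime `𝔭` which does not contain `c`,
`rd 𝔭 (f.scaleRoots c) = (rd 𝔭 f).scaleRoots (c mod 𝔭)` (`Polynomial.scaleRoots` and `map`) and scaling by a unit
preserves irreducibility (`Pool.Agent.N170.PF.irr_scale` for a field; `𝓞 F ⧸ 𝔭` is a field because `q ∈ 𝔭`, `𝔭 ≠ ⊥`);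
`(f.scaleRoots c).divX` is `f.divX.scaleRoots c` (same leading coefficient, degree `2 g`). The discriminant:
`dsc g (f.scaleRoots c) = c ^ (2 g (2 g + 1)) * dsc g f` (resultants; or `dsc` is, up to sign, a product of
differences of zeros; library: `git grep -n dsc` with `scaleRoots` in `N170/PF`, `N667/PF`, `H459`), so for `c ∉ 𝔭` one is
in `𝔭 ^ 2` iff the other is; `Weak`: the zero `x` of `f` modulo `𝔭 ^ 2` corresponds to `c x`. -/
def S_SCG : Prop := ∀ (F : Type) [Field F] [NumberField F] (g : ℕ), 1 ≤ g → ∀ (c : ℕ)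
  (f : (𝓞 F)[X]), 0 < c → Pol g f → Pol g (f.scaleRoots (c : 𝓞 F)) ∧
  (∀ B : ℕ, Ht g B f → Ht g (c * B) (f.scaleRoots (c : 𝓞 F))) ∧
  (∀ (q : ℕ) (𝔮 : Ideal (𝓞 F)), q.Prime → ¬ q ∣ c → 𝔮.IsPrime → (q : 𝓞 F) ∈ 𝔮 →
    (Gq q 𝔮 (f.scaleRoots (c : 𝓞 F)) ↔ Gq q 𝔮 f)) ∧
  (∀ v : HeightOneSpectrum (𝓞 F), (c : 𝓞 F) ∉ v.asIdeal →
    dsc g (f.scaleRoots (c : 𝓞 F)) ∈ v.asIdeal ^ 2 → dsc g f ∈ v.asIdeal ^ 2) ∧
  (∀ v : HeightOneSpectrum (𝓞 F), (c : 𝓞 F) ∉ v.asIdeal → Weak v.asIdeal f →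
    Weak v.asIdeal (f.scaleRoots (c : 𝓞 F))) ∧
  (Irreducible (fF f) → Irreducible (fF (f.scaleRoots (c : 𝓞 F))))

/-- **S_LSC** (the image of the Jacobian and scaling by a square).

Proof. A pair `(u, v)` with `u ∣ v ^ 2 - f.scaleRoots (e ^ 2)` gives the pair
`u' = e ^ (-2 deg u) u(e ^ 2 X)`, `v' = e ^ (-(2 g + 1)) v(e ^ 2 X)` for `f`, since
`(f.scaleRoots (e ^ 2))(e ^ 2 X) = e ^ (2 (2 g + 1)) f(X)`; the factor `e ^ (-2 deg u)` is a square. Conversely (second part)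
use `e⁻¹`: `(f.scaleRoots c).scaleRoots c⁻¹ = f`. See also `Pool.Agent.H459.UD.loc_sc` (`H459/UD/Sc.lean`, cubics) and
`sqt` in `N457/PQ`. -/
def S_LSC : Prop := ∀ (k : Type) [Field k] [CharZero k] (f h : k[X]) (e : k), e ≠ 0 → f.Monic →
  Odd f.natDegree → Pool.Agent.N783.PQ.LocIm k (f.scaleRoots (e ^ 2)) h →
  Pool.Agent.N783.PQ.LocIm k f (h.comp (C (e ^ 2) * X))

/-- **S_SELSC** (the 2-Selmer group and scaling by a square; assume `S_LSC`).

Proof. As `Pool.Agent.H459.UD.sel_scale` (`H459/UD/Sc.lean`, cubics, `e = 2`). Let `h` be an element for `f`. Put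
`h₂ = h.comp (C (e ^ 2)⁻¹ * X)`, an element for `f₂ = f.scaleRoots (e ^ 2)`: coprime, of square norm
(`AdjoinRoot f₂ ≃ AdjoinRoot f`, root `↦ e ^ 2 *` root, maps `mk h₂` to `mk h`; `Algebra.norm` is preserved by algebra
isomorphisms, `Algebra.norm_eq_of_algEquiv`), and everywhere in the image by `S_LSC` for `e⁻¹` (`f = f₂.scaleRoots (e ^ 2)⁻¹`,
`LocIm f h → LocIm f₂ h₂`; `map` commutes with `scaleRoots` and `comp`). So `f₂ ∣ h₂ - s ^ 2`; substitute `e ^ 2 X`: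
`f ∣ h - (s(e ^ 2 X)) ^ 2`. -/
def S_SELSC : Prop := ∀ (M : Type) [Field M] [NumberField M] (f : (𝓞 M)[X]) (e : ℕ), 0 < e →
  f.Monic → Odd f.natDegree → SelZero (f.scaleRoots ((e ^ 2 : ℕ) : 𝓞 M)) → SelZero f

/-- **S_LL** (lattices at the bad primes; assume `S_LAT` and `S_LSC`).

Proof. As `Pool.Agent.H459.UD.ll_pt` (`H459/UD/Lld.lean`, cubics; `tp` here is `co .. 2` there, `S_LAT` replaces
`adm_cls`). Let `k = w.adicCompletion F` (characteristic zero: `Pool.Agent.H459.UT.charzero_cpt`), `v = Valued.v`,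
`j : F → k`, `c = (2 d) ^ 2`, `f₁ = (fF f).map j`, monic, squarefree (`f` is irreducible over `F`, characteristic
zero, so separable), with integral coefficients. `θ = c θ'` with `θ' = θ / c` a zero of `f`; there is
`φ : L → AdjoinRoot f₁` with `φ θ = c * root` and `φ (aeval θ p) = mk (p.map j)(c X)` (`Pool.Agent.H459.UT.ev_hom` with
`ρ = c * root`, a zero of the scaled polynomial). Put `h₁ = (h.map j).comp (C c * X)`; `LocIm k f₁ h₁` by `S_LSC`
(`e = 2 d`), `φ α = mk h₁` for `α = aeval θ h`, a unit, and the norm of `mk h₁` is the image of the norm of `α`, a square (both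
are the determinant of the multiplication in the bases `θ ^ i` and `(c * root) ^ i`; base change, `h` reduced modulo the
polynomial). `S_LAT` for `f₁, h₁`, `c` (`v c = v (4 d ^ 2) ≤ v (4 π)` since `d ∈ w`) gives `Λ`. And
`j (hG.top x) = c ^ (-2 g) tp (φ x)` (for `x = θ ^ i`, `i ≤ 2 g`, the coefficient of `root ^ (2 g)` of
`c ^ i root ^ i` is `c ^ (2 g)` for `i = 2 g` and `0` otherwise). Put `lam x = Λ (c ^ (-g) • (φ x * (φ α)⁻¹))`. Then
`lam x ⬝ᵥ (GA *ᵥ lam y) = c ^ (-2 g) tp (φ x φ y (φ α)⁻¹) = j (top (x y / α))`, and the stability is that of `Λ` under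
`c * root`. -/
def S_LL : Prop := ∀ (F L : Type) [Field F] [NumberField F] [Field L] [NumberField L] [Algebra F L]
  (g d : ℕ) (f : (𝓞 F)[X]) (θ : L) (w : HeightOneSpectrum (𝓞 F)), 1 ≤ g → f.Monic →
  f.natDegree = 2 * g + 1 → Irreducible (fF f) → 0 < d → (d : 𝓞 F) ∈ w.asIdeal →
  ∀ (hG : IsGen g (f.scaleRoots (((2 * d) ^ 2 : ℕ) : 𝓞 F)) θ) (h : F[X]), aeval θ h ≠ 0 →
  IsSquare (Algebra.norm F (aeval θ h)) →
  LocF (w.adicCompletion F) (fF (f.scaleRoots (((2 * d) ^ 2 : ℕ) : 𝓞 F))) h →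
  ∃ lam, LL hG w (aeval θ h) (GA g (w.adicCompletion F)) lam

end Pool.Agent.H458.AG
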