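import Pool.Agent.H458.AG.Parts
import Pool.Agent.H80.AG458.IRQ
import Pool.Agent.H30.AG458.REAL1
import Pool.Agent.H166.AG458.TOW

/-!
# Project AG (helper458): the assembly
-/

set_option autoImplicit false
set_option linter.all false

open Polynomial Matrix IsDedekindDomain NumberField
open scoped Classical

namespace Pool.Agent.H458.AG

open Pool.Agent.N783.PF (Ht fF)
open Pool.Agent.N352.PF (Bx Bz)
open Pool.Agent.N352.PJ (dd pol)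

theorem tail : S_TAIL :=
  Pool.Agent.H152.AG458.tail Pool.Agent.H458.AU.smlr Pool.Agent.N352.PF.bxT
    (Pool.Agent.N352.PF.STR331.str Pool.Agent.N75.PF.cu Pool.Agent.N364.PF.cl Pool.Agent.N195.PF.pf)
    Pool.Agent.N935.PF.WK.wk Pool.Agent.N195.PF.pf

theorem few : S_FEW := Pool.Agent.H102.AG458.few fib Pool.Agent.H337.AU458.cheb

theorem dcT : S_DC := Pool.Agent.H236.AG458.dc (Pool.Agent.H47.AG458.BDS.bds Pool.Agent.N783.PF.bad)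

theorem tow : S_TOW := Pool.Agent.H166.AG458.tow Pool.Agent.H80.AG458.irq Pool.Agent.H30.AG458.real1

theorem cor (F : Type) [Field F] [NumberField F] (g : ℕ) (hg : 1 ≤ g) (W₀ : ℕ) (hW₀ : 0 < W₀)
    (ε : ℝ) (hε : 0 < ε) : ∃ (R : ℕ) (𝒟 : Finset ℕ), 0 < R ∧ W₀ ∣ R ∧ 1 ∈ 𝒟 ∧
    (∀ D ∈ 𝒟, Squarefree D ∧ D % (8 * W₀) = 1 % (8 * W₀) ∧ D ∣ R) ∧
    ∃ B₀ : ℕ, ∀ B ≥ B₀, {f : (𝓞 F)[X] | Ht g B f}.Finite ∧
    (({f : (𝓞 F)[X] | Ht g B f ∧ ¬ Tws R 𝒟 f}.ncard : ℝ)) ≤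
      ε * (B : ℝ) ^ (Module.finrank ℚ F * dd g) :=
  core tail few dcT (Pool.Agent.H665.AU458.deg Pool.Agent.H348.AU458.SUM.sum)
    (Pool.Agent.H686.AG458.gc Pool.Agent.H372.AG458.irc) Pool.Agent.H231.AG458.scg ll selsc
    (Pool.Agent.H139.AG458.irr fib Pool.Agent.H372.AG458.irc) tow F g hg W₀ hW₀ ε hε

/-- The number of polynomials. -/
theorem lower (F : Type) [Field F] [NumberField F] (g : ℕ) : ∃ C B₀ : ℕ, 1 ≤ C ∧ ∀ B ≥ B₀,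
    {f : (𝓞 F)[X] | Ht g B f}.Finite →
    B ^ (Module.finrank ℚ F * dd g) ≤ C * {f : (𝓞 F)[X] | Ht g B f}.ncard := by
  obtain ⟨C, hC, h⟩ := Pool.Agent.N352.PF.bxT F g
  refine ⟨C, C, hC, fun B hB hfin => ?_⟩
  obtain ⟨-, h1, -⟩ := h B 1 (fun _ => 0) one_pos (by omega)
  rw [one_pow, mul_one] at h1
  refine h1.trans (Nat.mul_le_mul_left _ ?_)
  refine Set.ncard_le_ncard_of_injOn pol ?_ ?_ hfin
  · intro a ha
    exact Pool.Agent.N951.PF.ht_pol ha.1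
  · intro a _ a' _ haa
    exact Pool.Agent.N951.PF.pol_inj haa

theorem scale_injO {F : Type} [Field F] [NumberField F] {c : 𝓞 F} (hc : c ≠ 0) {g : ℕ}
    {f f' : (𝓞 F)[X]} (hf : Pol g f) (hf' : Pol g f') (h : f.scaleRoots c = f'.scaleRoots c) :
    f = f' := by
  refine Polynomial.ext fun j => ?_
  have h1 := congrArg (fun p : (𝓞 F)[X] => p.coeff j) h
  simp only [coeff_scaleRoots] at h1
  rw [hf.deg, hf'.deg] at h1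
  exact mul_right_cancel₀ (pow_ne_zero _ hc) h1

theorem ht_scaleO {F : Type} [Field F] [NumberField F] {g B δ : ℕ} {d : 𝓞 F} {f : (𝓞 F)[X]}
    (hf : Ht g B f) (hd : ∀ σ : F →+* ℂ, ‖σ (d : F)‖ ≤ δ) : Ht g (δ * B) (f.scaleRoots d) where
  mon := (monic_scaleRoots_iff _).2 hf.mon
  deg := by rw [natDegree_scaleRoots, hf.deg]
  tr := by rw [coeff_scaleRoots, hf.tr, zero_mul]
  ht := by
    intro j hj σ
    rw [coeff_scaleRoots, hf.deg]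
    have e : σ ((f.coeff j * d ^ (2 * g + 1 - j) : 𝓞 F) : F) =
        σ (f.coeff j : F) * σ (d : F) ^ (2 * g + 1 - j) := by
      push_cast
      rw [map_mul, map_pow]
    rw [e, norm_mul, norm_pow]
    push_cast
    rw [mul_pow, mul_comm ((δ : ℝ) ^ _)]
    exact mul_le_mul (hf.ht j hj σ) (pow_le_pow_left₀ (norm_nonneg _) (hd σ) _) (by positivity)
      (by positivity)

/-- **The theorem.** -/
theorem final (F : Type) [Field F] [NumberField F] (g : ℕ) (hg : 1 ≤ g) (W₀ : ℕ)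
    (hW₀ : 0 < W₀) (𝒮 : Finset (𝓞 F)) (h𝒮 : ∀ d ∈ 𝒮, d ≠ 0) (ε : ℝ) (hε : 0 < ε) :
    ∃ (R : ℕ) (𝒟 : Finset ℕ), 0 < R ∧ W₀ ∣ R ∧ 1 ∈ 𝒟 ∧
    (∀ D ∈ 𝒟, Squarefree D ∧ D % (8 * W₀) = 1 % (8 * W₀) ∧ D ∣ R) ∧
    ∃ B₀ : ℕ, ∀ B ≥ B₀, {f : (𝓞 F)[X] | Ht g B f}.Finite ∧ 0 < {f : (𝓞 F)[X] | Ht g B f}.ncard ∧
    (({f : (𝓞 F)[X] | Ht g B f ∧ ∃ d ∈ 𝒮, ¬ Tws R 𝒟 (f.scaleRoots d)}.ncard : ℝ)) ≤
      ε * ({f : (𝓞 F)[X] | Ht g B f}.ncard : ℝ) := by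
  obtain ⟨C, B₁, hC, hlow⟩ := lower F g
  have hC0 : (0 : ℝ) < C := by exact_mod_cast hC
  -- the size of the elements of `𝒮`
  obtain ⟨δ, hδ1, hδ⟩ : ∃ δ : ℕ, 1 ≤ δ ∧ ∀ d ∈ 𝒮, ∀ σ : F →+* ℂ, ‖σ (d : F)‖ ≤ δ := by
    obtain ⟨m, hm⟩ := exists_nat_ge (∑ d ∈ 𝒮, ∑ σ : F →+* ℂ, ‖σ (d : F)‖)
    refine ⟨m + 1, by omega, fun d hd σ => ?_⟩
    have h1 : ‖σ (d : F)‖ ≤ ∑ σ : F →+* ℂ, ‖σ (d : F)‖ :=
      Finset.single_le_sum (f := fun σ : F →+* ℂ => ‖σ (d : F)‖) (fun _ _ => norm_nonneg _)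
        (Finset.mem_univ σ)
    have h2 : ∑ σ : F →+* ℂ, ‖σ (d : F)‖ ≤ ∑ d ∈ 𝒮, ∑ σ : F →+* ℂ, ‖σ (d : F)‖ :=
      Finset.single_le_sum (f := fun d : 𝓞 F => ∑ σ : F →+* ℂ, ‖σ (d : F)‖)
        (fun _ _ => Finset.sum_nonneg fun _ _ => norm_nonneg _) hd
    push_cast
    linarith
  have hδ0 : (0 : ℝ) < δ := by exact_mod_cast hδ1
  obtain ⟨n, hn⟩ : ∃ n, n = Module.finrank ℚ F * dd g := ⟨_, rfl⟩
  obtain ⟨s, hs⟩ : ∃ s : ℝ, s = (𝒮.card : ℝ) := ⟨_, rfl⟩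
  have hs0 : 0 ≤ s := by rw [hs]; exact Nat.cast_nonneg _
  obtain ⟨R, 𝒟, hR, hWR, h1D, hD, B₀, hB₀⟩ := cor F g hg W₀ hW₀ (ε / (C * (s + 1) * δ ^ n)) (by positivity)
  rw [← hn] at hB₀ hlow
  refine ⟨R, 𝒟, hR, hWR, h1D, hD, max (max B₀ B₁) 1, fun B hB => ?_⟩
  have hBB0 : B₀ ≤ B := ((le_max_left _ _).trans (le_max_left _ _)).trans hB
  have hBB1 : B₁ ≤ B := ((le_max_right _ _).trans (le_max_left _ _)).trans hB
  have hB1 : 1 ≤ B := (le_max_right _ _).trans hB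
  obtain ⟨hfin, -⟩ := hB₀ B hBB0
  have hl := hlow B hBB1 hfin
  have hpos : 0 < {f : (𝓞 F)[X] | Ht g B f}.ncard := by
    have h1 : 0 < B ^ n := by positivity
    exact Nat.pos_of_mul_pos_left (lt_of_lt_of_le h1 hl) |> fun h => by
      rcases Nat.eq_zero_or_pos {f : (𝓞 F)[X] | Ht g B f}.ncard with h0 | h0
      · rw [h0, mul_zero] at hl
        omega
      · exact h0
  refine ⟨hfin, hpos, ?_⟩
  obtain ⟨hfin', hE⟩ := hB₀ (δ * B) (hBB0.trans (Nat.le_mul_of_pos_left _ hδ1))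
  obtain ⟨E, hEd⟩ : ∃ E : Set (𝓞 F)[X], E = {f : (𝓞 F)[X] | Ht g (δ * B) f ∧ ¬ Tws R 𝒟 f} := ⟨_, rfl⟩
  rw [← hEd] at hE
  have hEf : E.Finite := hfin'.subset (by rw [hEd]; exact fun f hf => hf.1)
  obtain ⟨V, hV⟩ : ∃ V : 𝓞 F → Set (𝓞 F)[X], V = fun d => {f : (𝓞 F)[X] | Ht g B f ∧
    ¬ Tws R 𝒟 (f.scaleRoots d)} := ⟨_, rfl⟩
  have hVf : ∀ d, (V d).Finite := fun d => hfin.subset (by rw [hV]; exact fun p hp => hp.1)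
  have hVc : ∀ d ∈ 𝒮, (V d).ncard ≤ E.ncard := by
    intro d hd
    refine Set.ncard_le_ncard_of_injOn (fun f => f.scaleRoots d) ?_ ?_ hEf
    · intro f hf
      rw [hV] at hf
      rw [hEd]
      exact ⟨ht_scaleO hf.1 (hδ d hd), hf.2⟩
    · intro f hf f' hf' h
      rw [hV] at hf hf'
      exact scale_injO (h𝒮 d hd) (pol_of_ht hf.1) (pol_of_ht hf'.1) h
  have hsub : {f : (𝓞 F)[X] | Ht g B f ∧ ∃ d ∈ 𝒮, ¬ Tws R 𝒟 (f.scaleRoots d)} ⊆ ⋃ d ∈ 𝒮, V d := by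
    rintro f ⟨hf, d, hd, hT⟩
    rw [Set.mem_iUnion₂]
    refine ⟨d, hd, ?_⟩
    rw [hV]
    exact ⟨hf, hT⟩
  have hUf : (⋃ d ∈ 𝒮, V d).Finite := Set.Finite.biUnion (Finset.finite_toSet _) fun d _ => hVf d
  have h1 := Set.ncard_le_ncard hsub hUf
  have h3 : (⋃ d ∈ 𝒮, V d).ncard ≤ ∑ d ∈ 𝒮, (V d).ncard :=
    Pool.Agent.N270.PJ.ncard_biUnion_le V 𝒮
  have h4 : ∑ d ∈ 𝒮, (V d).ncard ≤ 𝒮.card * E.ncard := by
    rw [← smul_eq_mul, ← Finset.sum_const]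
    exact Finset.sum_le_sum hVc
  have h5 : (({f : (𝓞 F)[X] | Ht g B f ∧ ∃ d ∈ 𝒮, ¬ Tws R 𝒟 (f.scaleRoots d)}.ncard : ℕ) : ℝ) ≤
      s * E.ncard := by
    rw [hs]
    exact_mod_cast h1.trans (h3.trans h4)
  refine h5.trans ?_
  obtain ⟨N, hN⟩ : ∃ N : ℝ, N = ({f : (𝓞 F)[X] | Ht g B f}.ncard : ℝ) := ⟨_, rfl⟩
  have hl' : (B : ℝ) ^ n ≤ C * N := by
    rw [hN]
    exact_mod_cast hl
  rw [← hN]
  have hE0 : (0 : ℝ) ≤ E.ncard := Nat.cast_nonneg _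
  calc s * (E.ncard : ℝ) ≤ (s + 1) * (ε / (C * (s + 1) * δ ^ n) * ((δ * B : ℕ) : ℝ) ^ n) :=
        mul_le_mul (by linarith) hE hE0 (by linarith)
    _ = ε / C * (B : ℝ) ^ n := by
        push_cast
        rw [mul_pow]
        field_simp
    _ ≤ ε / C * (C * N) := mul_le_mul_of_nonneg_left hl' (by positivity)
    _ = ε * N := by field_simp

end Pool.Agent.H458.AG
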