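import Pool.Agent.H458.AG.Final
import Pool.Graph.R_pool_sql_team_seeded_63374d34.N874.TF.All

/-!
# Project AG (helper458): from the explicit 2-Selmer groups to the points and Sha
-/

set_option autoImplicit false
set_option linter.all false

open Polynomial Filter IsDedekindDomain NumberField
open scoped Classical

namespace Pool.Agent.H458.AG.Gen

open Pool.Agent.N874.Jac (UniquelyTwoDivisible ShaTwoTrivialReal)
open Pool.Agent.H459.UF (Unr Deg1 fo fb)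
open Pool.Agent.H458.AG (ClsM Tws)
open Pool.Agent.N783.PF (Ht fF rd SelZero)
open Pool.Agent.N874.TF (fM)

variable {F : Type} [Field F] [NumberField F]

theorem unr_of {M : Type} [Field M] [NumberField M] [Algebra F M] {v : HeightOneSpectrum (𝓞 F)}
    (h : ∀ w : HeightOneSpectrum (𝓞 M), v.asIdeal.map (algebraMap (𝓞 F) (𝓞 M)) ≤ w.asIdeal →
      ¬ v.asIdeal.map (algebraMap (𝓞 F) (𝓞 M)) ≤ w.asIdeal ^ 2) : Unr F M v := fun P hP =>
  h P (hP.trans (Ideal.pow_le_self two_ne_zero)) hP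

theorem of_unr {M : Type} [Field M] [NumberField M] [Algebra F M] {v : HeightOneSpectrum (𝓞 F)}
    (h : Unr F M v) : ∀ w : HeightOneSpectrum (𝓞 M),
      v.asIdeal.map (algebraMap (𝓞 F) (𝓞 M)) ≤ w.asIdeal →
      ¬ v.asIdeal.map (algebraMap (𝓞 F) (𝓞 M)) ≤ w.asIdeal ^ 2 := fun P _ hP => h P hP

/-- `M = F` belongs to all the classes. -/
theorem cls_base (R : ℕ) (f : (𝓞 F)[X]) : ClsM F F R f :=
  ⟨fun v hv => ⟨Pool.Agent.H458.AU.unr_self v, Pool.Agent.H458.AU.deg1_self v⟩,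
    fun v => Or.inl (Pool.Agent.H458.AU.unr_self v), fun σ => Or.inl ⟨σ, by
    ext x
    rfl⟩⟩

theorem fF_fo (M : Type) [Field M] [NumberField M] [Algebra F M] (f : (𝓞 F)[X]) :
    fF (fo M f) = (f.map (algebraMap (𝓞 F) F)).map (algebraMap F M) := by
  unfold fF fo
  rw [Polynomial.map_map, Polynomial.map_map]
  rfl

theorem irr_scale {f : (𝓞 F)[X]} {c : 𝓞 F} (hc : c ≠ 0) (hm : f.Monic) (h : Irreducible (fF f)) :
    Irreducible (fF (f.scaleRoots c)) := by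
  have hc' : (c : F) ≠ 0 := by
    intro h0
    exact hc (by exact_mod_cast h0)
  have e : fF (f.scaleRoots c) = (fF f).scaleRoots (c : F) := by
    refine Polynomial.ext fun j => ?_
    unfold fF
    rw [coeff_map, coeff_scaleRoots, coeff_scaleRoots, coeff_map, hm.natDegree_map, map_mul, map_pow]
  rw [e]
  exact Pool.Agent.N170.PF.irr_scale hc' h

/-- From the zero 2-Selmer group to the points and Sha. -/
theorem key {M : Type} [Field M] [NumberField M] [Algebra F M] {n : ℕ}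
    (hn : Module.finrank F M = 2 ^ n) {f : (𝓞 F)[X]} (hm : f.Monic) (ho : Odd f.natDegree)
    (hi : Irreducible (fF f)) (h : SelZero (fo M f)) :
    UniquelyTwoDivisible ((f.map (algebraMap (𝓞 F) F)).map (algebraMap F M)) ∧
      ShaTwoTrivialReal ((f.map (algebraMap (𝓞 F) F)).map (algebraMap F M)) (𝓞 M) := by
  refine Pool.Agent.N874.TF.genuineF hn hm ho hi ?_
  have e : Pool.Agent.N874.TF.fM M f = fF (fo M f) := (fF_fo M f).symm
  rw [e]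
  exact h

/-- The set of the polynomials with good twists. -/
def VV (F : Type) [Field F] [NumberField F] (g R : ℕ) (𝒟 : Finset ℕ) (𝒮 : Finset (𝓞 F)) :
    Set (𝓞 F)[X] :=
  {f | f.Monic ∧ f.natDegree = 2 * g + 1 ∧ Irreducible (fF f) ∧ ∀ d ∈ 𝒮, Tws R 𝒟 (f.scaleRoots d)}

theorem part (F : Type) [Field F] [NumberField F] (W : ℕ) (hW : 0 < W) (𝒮 : Finset (𝓞 F))
    (h𝒮 : ∀ d ∈ 𝒮, d ≠ 0) (ε : ℝ) (hε : 0 < ε) (g : ℕ) (hg : 1 ≤ g) :
    (∀ B : ℕ, {f : (𝓞 F)[X] | Ht g B f}.Finite) ∧ ∃ (R : ℕ) (𝒟 : Finset ℕ), 0 < R ∧ 2 * W ∣ R ∧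
      1 ∈ 𝒟 ∧ (∀ D ∈ 𝒟, Squarefree D ∧ D ≡ 1 [MOD 8 * W] ∧ D ∣ R) ∧
      ∀ᶠ B : ℕ in atTop, 0 < {f : (𝓞 F)[X] | Ht g B f}.ncard ∧
        (1 - ε) * ({f : (𝓞 F)[X] | Ht g B f}.ncard : ℝ) ≤
          ((VV F g R 𝒟 𝒮 ∩ {f : (𝓞 F)[X] | Ht g B f}).ncard : ℝ) := by
  obtain ⟨R, 𝒟, hR, hWR, h1, hD, B₀, hB₀⟩ := Pool.Agent.H458.AG.final F g hg (2 * W) (by omega) 𝒮 h𝒮
    (ε / 2) (half_pos hε)
  obtain ⟨C, B₁, hC, hlow⟩ := Pool.Agent.H458.AG.lower F g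
  have hC0 : (0 : ℝ) < C := by exact_mod_cast hC
  obtain ⟨B₂, hB₂⟩ := Pool.Agent.H139.AG458.irr Pool.Agent.H458.AG.fib Pool.Agent.H372.AG458.irc F g hg
    (ε / (2 * C)) (by positivity)
  have hfin : ∀ B : ℕ, {f : (𝓞 F)[X] | Ht g B f}.Finite := by
    intro B
    have h1 := (hB₀ (max B B₀) (le_max_right _ _)).1
    refine h1.subset fun f hf => ⟨hf.mon, hf.deg, hf.tr, fun j hj σ => ?_⟩
    refine (hf.ht j hj σ).trans ?_
    exact pow_le_pow_left₀ (Nat.cast_nonneg _) (by exact_mod_cast le_max_left B B₀) _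
  refine ⟨hfin, R, 𝒟, hR, hWR, h1, fun D hD' => ⟨(hD D hD').1, ?_, (hD D hD').2.2⟩, ?_⟩
  · have h2 : D ≡ 1 [MOD 8 * (2 * W)] := (hD D hD').2.1
    exact h2.of_dvd (Nat.mul_dvd_mul_left 8 (Nat.dvd_mul_left W 2))
  filter_upwards [eventually_ge_atTop (max B₀ (max B₁ B₂))] with B hB
  have hb0 : B₀ ≤ B := (le_max_left _ _).trans hB
  have hb1 : B₁ ≤ B := ((le_max_left _ _).trans (le_max_right _ _)).trans hB
  have hb2 : B₂ ≤ B := ((le_max_right _ _).trans (le_max_right _ _)).trans hB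
  obtain ⟨h3, h4, h5⟩ := hB₀ B hb0
  have h6 := hlow B hb1 h3
  have h7 := hB₂ B hb2
  refine ⟨h4, ?_⟩
  obtain ⟨P, hP⟩ : ∃ P : Set (𝓞 F)[X], P = {f : (𝓞 F)[X] | Ht g B f} := ⟨_, rfl⟩
  rw [← hP] at h3 h4 h5 h6 ⊢
  obtain ⟨E, hE⟩ : ∃ E : Set (𝓞 F)[X], E = {f : (𝓞 F)[X] | Ht g B f ∧
    ∃ d ∈ 𝒮, ¬ Tws R 𝒟 (f.scaleRoots d)} := ⟨_, rfl⟩
  obtain ⟨E', hE'⟩ : ∃ E' : Set (𝓞 F)[X], E' = {f : (𝓞 F)[X] | Ht g B f ∧ ¬ Irreducible (fF f)} :=
    ⟨_, rfl⟩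
  rw [← hE] at h5
  rw [← hE'] at h7
  have hEf : E.Finite := h3.subset (by rw [hE, hP]; exact fun f hf => hf.1)
  have hEf' : E'.Finite := h3.subset (by rw [hE', hP]; exact fun f hf => hf.1)
  have hsub : P ⊆ (VV F g R 𝒟 𝒮 ∩ P) ∪ (E ∪ E') := by
    intro f hf
    have hf' : Ht g B f := by rw [hP] at hf; exact hf
    by_cases c1 : f ∈ E
    · exact Or.inr (Or.inl c1)
    · by_cases c2 : f ∈ E'
      · exact Or.inr (Or.inr c2)
      · left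
        rw [hE, Set.mem_setOf_eq, not_and] at c1
        rw [hE', Set.mem_setOf_eq, not_and, not_not] at c2
        have c3 := c1 hf'
        push Not at c3
        exact ⟨⟨hf'.mon, hf'.deg, c2 hf', c3⟩, hf⟩
  have h8 := Set.ncard_le_ncard hsub ((h3.subset Set.inter_subset_right).union (hEf.union hEf'))
  have h9 := Set.ncard_union_le (VV F g R 𝒟 𝒮 ∩ P) (E ∪ E')
  have h10 := Set.ncard_union_le E E'
  have h11 : (P.ncard : ℝ) ≤ ((VV F g R 𝒟 𝒮 ∩ P).ncard : ℝ) +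
      ((E.ncard : ℝ) + (E'.ncard : ℝ)) := by
    exact_mod_cast h8.trans (h9.trans (Nat.add_le_add_left h10 _))
  have h12 : (E'.ncard : ℝ) ≤ ε / 2 * (P.ncard : ℝ) := by
    have h13 : ((B ^ (Module.finrank ℚ F * Pool.Agent.N352.PJ.dd g) : ℕ) : ℝ) ≤
        ((C * P.ncard : ℕ) : ℝ) := by exact_mod_cast h6
    push_cast at h13
    calc (E'.ncard : ℝ) ≤ ε / (2 * C) *
          (B : ℝ) ^ (Module.finrank ℚ F * Pool.Agent.N352.PJ.dd g) := h7
      _ ≤ ε / (2 * C) * (C * (P.ncard : ℝ)) :=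
        mul_le_mul_of_nonneg_left h13 (by positivity)
      _ = ε / 2 * (P.ncard : ℝ) := by field_simp
  linarith

/-- The twists of a polynomial in `VV` over all the fields in the class. -/
theorem triv_of {g R : ℕ} {𝒟 : Finset ℕ} {𝒮 : Finset (𝓞 F)} (h𝒮 : ∀ d ∈ 𝒮, d ≠ 0)
    (hD0 : ∀ D ∈ 𝒟, Squarefree D) {f : (𝓞 F)[X]} (hf : f ∈ VV F g R 𝒟 𝒮) {d : 𝓞 F} (hd : d ∈ 𝒮) :
    ∃ D ∈ 𝒟, (f.scaleRoots (d * (D : 𝓞 F))).Monic ∧
      (f.scaleRoots (d * (D : 𝓞 F))).natDegree = 2 * g + 1 ∧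
      Irreducible (fF (f.scaleRoots (d * (D : 𝓞 F)))) ∧
      ∀ (M : Type) [Field M] [NumberField M] [Algebra F M] [IsGalois F M] (b : ℕ),
      Module.finrank F M = 2 ^ b → ClsM F M R (f.scaleRoots d) →
      UniquelyTwoDivisible (((f.scaleRoots (d * (D : 𝓞 F))).map (algebraMap (𝓞 F) F)).map
        (algebraMap F M)) ∧
        ShaTwoTrivialReal (((f.scaleRoots (d * (D : 𝓞 F))).map (algebraMap (𝓞 F) F)).map
          (algebraMap F M)) (𝓞 M) := by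
  obtain ⟨D, hD, h⟩ := hf.2.2.2 d hd
  have h0 : (D : 𝓞 F) ≠ 0 := Nat.cast_ne_zero.2 (hD0 D hD).ne_zero
  have hm : (f.scaleRoots (d * (D : 𝓞 F))).Monic := (monic_scaleRoots_iff _).2 hf.1
  have hdeg : (f.scaleRoots (d * (D : 𝓞 F))).natDegree = 2 * g + 1 := by
    rw [natDegree_scaleRoots, hf.2.1]
  have hirr := irr_scale (mul_ne_zero (h𝒮 d hd) h0) hf.1 hf.2.2.1
  refine ⟨D, hD, hm, hdeg, hirr, fun M _ _ _ _ b hb hM => ?_⟩
  have h1 := h M b hb hM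
  rw [← scaleRoots_mul] at h1
  exact key hb hm (by rw [hdeg]; exact odd_two_mul_add_one _) hirr h1

end Pool.Agent.H458.AG.Gen
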