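import Pool.Agent.H458.AG.Core
import Pool.Agent.H458.AU.Final
import Pool.Agent.H294.AG458.SPLIT
import Pool.Agent.H71.AG458.MAX
import Pool.Agent.H307.AG458.COMB
import Pool.Agent.H118.AG458.RED1
import Pool.Agent.H650.AG458.RED2
import Pool.Agent.H945.AG458.ISO
import Pool.Agent.H322.AG458.LAT
import Pool.Agent.H152.AG458.TAIL
import Pool.Agent.H686.AG458.GC
import Pool.Agent.H372.AG458.IRC
import Pool.Agent.H139.AG458.IRR
import Pool.Agent.H348.AG458.FIB
import Pool.Agent.H102.AG458.FEW
import Pool.Agent.H47.AG458.BDS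
import Pool.Agent.H236.AG458.DC
import Pool.Agent.H231.AG458.SCG
import Pool.Agent.H234.AG458.LSC
import Pool.Agent.H295.AG458.SELSC
import Pool.Agent.H383.AG458.LL

/-!
# Project AG (helper458): the parts
-/

set_option autoImplicit false
set_option linter.all false

namespace Pool.Agent.H458.AG

theorem fib : S_FIB := Pool.Agent.H348.AG458.fib Pool.Agent.N352.PF.bxT

theorem comb : S_COMB := Pool.Agent.H307.AG458.comb Pool.Agent.H294.AG458.split Pool.Agent.H71.AG458.max

theorem lat : S_LAT := Pool.Agent.H322.AG458.lat comb Pool.Agent.H118.AG458.red1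
  Pool.Agent.H650.AG458.red2 Pool.Agent.H945.AG458.iso

theorem ll : S_LL := Pool.Agent.H383.AG458.ll lat Pool.Agent.H234.AG458.lsc

theorem selsc : S_SELSC := Pool.Agent.H295.AG458.selsc Pool.Agent.H234.AG458.lsc

end Pool.Agent.H458.AG
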