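import Pool.Agent.H458.AG.Gen
import Pool.Graph.R_pool_sql_team_seeded_63374d34.N591.PF.Iso1
import Pool.Graph.R_pool_sql_team_seeded_63374d34.N457.PQ.Sqt
import Pool.Graph.R_pool_sql_team_seeded_63374d34.N874.QM.Cnd

/-!
# Project AG (helper458): from a quadratic extension to the quadratic twist
-/

set_option autoImplicit false
set_option linter.all false

open Polynomial Filter IsDedekindDomain NumberField
open scoped Classical

namespace Pool.Agent.H458.AG.Quad

open Pool.Agent.N874.Jac (UniquelyTwoDivisible ShaTwoTrivialReal)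
open Pool.Agent.H459.UF (Unr Deg1 fo fb below lies_below')
open Pool.Agent.N783.PF (Ht fF rd SelZero)
open Pool.Agent.N783.PQ (LocIm Gm)

/-- The norm and the twist. -/
theorem norm_twist {K : Type} [Field K] {q : K[X]} (hq : Irreducible q) {c : K}
    (hc : c ≠ 0) (h : K[X]) :
    Algebra.norm K (AdjoinRoot.mk (q.scaleRoots c) h) =
      Algebra.norm K (AdjoinRoot.mk q (h.comp (C c * X))) := by
  have hq' : Irreducible (q.scaleRoots c) := Pool.Agent.N170.PF.irr_scale hc hq
  haveI : Fact (Irreducible q) := ⟨hq⟩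
  haveI : Fact (Irreducible (q.scaleRoots c)) := ⟨hq'⟩
  haveI : FiniteDimensional K (AdjoinRoot q) := (AdjoinRoot.powerBasis hq.ne_zero).finite
  haveI : FiniteDimensional K (AdjoinRoot (q.scaleRoots c)) :=
    (AdjoinRoot.powerBasis hq'.ne_zero).finite
  have h0 : aeval (algebraMap K (AdjoinRoot q) c * AdjoinRoot.root q) (q.scaleRoots c) = 0 := by
    refine scaleRoots_aeval_eq_zero ?_
    rw [AdjoinRoot.aeval_eq, AdjoinRoot.mk_self]
  let φ : AdjoinRoot (q.scaleRoots c) →ₐ[K] AdjoinRoot q :=
    AdjoinRoot.liftAlgHom (q.scaleRoots c) (Algebra.ofId K (AdjoinRoot q))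
      (algebraMap K (AdjoinRoot q) c * AdjoinRoot.root q) h0
  have hinj : Function.Injective φ := φ.toRingHom.injective
  have hfr : Module.finrank K (AdjoinRoot (q.scaleRoots c)) = Module.finrank K (AdjoinRoot q) := by
    rw [(AdjoinRoot.powerBasis hq'.ne_zero).finrank, (AdjoinRoot.powerBasis hq.ne_zero).finrank,
      AdjoinRoot.powerBasis_dim, AdjoinRoot.powerBasis_dim, natDegree_scaleRoots]
  have hsurj : Function.Surjective φ :=
    (LinearMap.injective_iff_surjective_of_finrank_eq_finrank (f := φ.toLinearMap) hfr).1 hinj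
  let e : AdjoinRoot (q.scaleRoots c) ≃ₐ[K] AdjoinRoot q := AlgEquiv.ofBijective φ ⟨hinj, hsurj⟩
  rw [← Algebra.norm_eq_of_algEquiv e (AdjoinRoot.mk (q.scaleRoots c) h)]
  congr 1
  have h1 : e (AdjoinRoot.mk (q.scaleRoots c) h) =
      aeval (algebraMap K (AdjoinRoot q) c * AdjoinRoot.root q) h := by
    have h2 : e (AdjoinRoot.mk (q.scaleRoots c) h) = φ (AdjoinRoot.mk (q.scaleRoots c) h) := rfl
    have h3 : φ (AdjoinRoot.root (q.scaleRoots c)) =
        algebraMap K (AdjoinRoot q) c * AdjoinRoot.root q := AdjoinRoot.liftAlgHom_root _ _ _ _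
    rw [h2, ← AdjoinRoot.aeval_eq, ← aeval_algHom_apply, h3]
  rw [h1, ← AdjoinRoot.aeval_eq, aeval_comp, map_mul, aeval_C, aeval_X]

/-- Base change of the norm. -/
theorem norm_map {K E : Type} [Field K] [Field E] [CharZero K] [CharZero E] (φ : K →+* E) {g : ℕ}
    {f h : K[X]} (hf : f.Monic) (hd : f.natDegree = 2 * g + 1) :
    Algebra.norm E (AdjoinRoot.mk (f.map φ) (h.map φ)) =
      φ (Algebra.norm K (AdjoinRoot.mk f h)) := by
  have hf' : (f.map φ).Monic := hf.map φ
  have hd' : (f.map φ).natDegree = 2 * g + 1 := by rw [hf.natDegree_map, hd]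
  have e1 := Pool.Agent.N271.PQ.det_Gm (h := h.map φ) hf' hd'
  rw [Pool.Agent.N591.PF.Gm_map φ g hf, ← RingHom.mapMatrix_apply, ← RingHom.map_det,
    Pool.Agent.N271.PQ.det_Gm hf hd, map_mul, map_pow, map_neg, map_one] at e1
  exact (mul_left_cancel₀ (pow_ne_zero g (neg_ne_zero.2 one_ne_zero)) e1).symm

section quad

variable {K M : Type} [Field K] [Field M] [Algebra K M] [CharZero K]

/-- The polynomials over a quadratic extension. -/
theorem split_poly (h2 : Module.finrank K M = 2) {δ : M} (hδ : ∀ a : K, algebraMap K M a ≠ δ)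
    (s : M[X]) : ∃ a b : K[X], s = a.map (algebraMap K M) + C δ * b.map (algebraMap K M) := by
  have hsp : ∀ y : M, ∃ a b : K, y = algebraMap K M a + δ * algebraMap K M b := by
    intro y
    have hli : LinearIndependent K ![(1 : M), δ] := by
      rw [LinearIndependent.pair_iff]
      intro a b hab
      by_cases hb : b = 0
      · subst hb
        rw [zero_smul, add_zero, Algebra.smul_def, mul_one] at hab
        exact ⟨(map_eq_zero _).1 hab, rfl⟩
      · exfalso
        apply hδ (-(a / b))
        rw [Algebra.smul_def, Algebra.smul_def, mul_one] at hab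
        have hb' : algebraMap K M b ≠ 0 := (_root_.map_ne_zero _).2 hb
        rw [map_neg, map_div₀, neg_eq_iff_add_eq_zero]
        field_simp
        linear_combination hab
    haveI : FiniteDimensional K M := Module.finite_of_finrank_pos (by rw [h2]; exact two_pos)
    have hb := basisOfLinearIndependentOfCardEqFinrank hli (by rw [Fintype.card_fin, h2])
    have htop : Submodule.span K (Set.range ![(1 : M), δ]) = ⊤ :=
      hli.span_eq_top_of_card_eq_finrank' (by rw [Fintype.card_fin, h2])
    have hy : y ∈ Submodule.span K (Set.range ![(1 : M), δ]) := by rw [htop]; trivial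
    rw [Matrix.range_cons, Matrix.range_cons, Matrix.range_empty, Set.union_empty,
      Set.singleton_union, Submodule.mem_span_pair] at hy
    obtain ⟨a, b, hab⟩ := hy
    refine ⟨a, b, ?_⟩
    rw [← hab, Algebra.smul_def, Algebra.smul_def, mul_one, mul_comm]
  induction s using Polynomial.induction_on' with
  | add p q hp hq =>
    obtain ⟨a, b, h⟩ := hp
    obtain ⟨a', b', h'⟩ := hq
    refine ⟨a + a', b + b', ?_⟩
    rw [h, h', Polynomial.map_add, Polynomial.map_add]
    ring
  | monomial n y =>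
    obtain ⟨a, b, h⟩ := hsp y
    refine ⟨monomial n a, monomial n b, ?_⟩
    rw [h, map_monomial, map_monomial, map_add, C_mul_monomial]

/-- The two parts of a divisible polynomial. -/
theorem dvd_parts {δ : M} (hδ : ∀ a : K, algebraMap K M a ≠ δ) (h2 : Module.finrank K M = 2) {f a b : K[X]} (hf : f.Monic)
    (h : f.map (algebraMap K M) ∣ a.map (algebraMap K M) + C δ * b.map (algebraMap K M)) :
    f ∣ a ∧ f ∣ b := by
  have h1 : (a.map (algebraMap K M) + C δ * b.map (algebraMap K M)) %ₘ f.map (algebraMap K M) = 0 :=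
    (modByMonic_eq_zero_iff_dvd (hf.map _)).2 h
  rw [add_modByMonic] at h1
  have h3 : (C δ * b.map (algebraMap K M)) %ₘ f.map (algebraMap K M) =
      C δ * (b.map (algebraMap K M) %ₘ f.map (algebraMap K M)) := by
    rw [← smul_eq_C_mul, ← smul_eq_C_mul, smul_modByMonic]
  rw [h3, ← map_modByMonic _ hf, ← map_modByMonic _ hf] at h1
  have key : ∀ n, (a %ₘ f).coeff n = 0 ∧ (b %ₘ f).coeff n = 0 := by
    intro n
    have h4 := congrArg (fun p : M[X] => p.coeff n) h1
    simp only [coeff_add, coeff_map, coeff_C_mul, coeff_zero] at h4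
    by_cases hb : (b %ₘ f).coeff n = 0
    · rw [hb, map_zero, mul_zero, add_zero] at h4
      exact ⟨(map_eq_zero _).1 h4, hb⟩
    · exfalso
      apply hδ (-((a %ₘ f).coeff n / (b %ₘ f).coeff n))
      have hb' : algebraMap K M ((b %ₘ f).coeff n) ≠ 0 := (_root_.map_ne_zero _).2 hb
      rw [map_neg, map_div₀, neg_eq_iff_add_eq_zero]
      field_simp
      linear_combination h4
  constructor
  · rw [← modByMonic_eq_zero_iff_dvd hf]
    exact Polynomial.ext fun n => by rw [(key n).1, coeff_zero]
  · rw [← modByMonic_eq_zero_iff_dvd hf]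
    exact Polynomial.ext fun n => by rw [(key n).2, coeff_zero]

/-- A class with square norm which is a square over the quadratic extension is a square. -/
theorem square_down (h2 : Module.finrank K M = 2) {g : ℕ} {f h : K[X]} (hf : f.Monic)
    (hd : f.natDegree = 2 * g + 1) (hirr : Irreducible f) (hcop : IsCoprime h f) {m : K} {δ : M}
    (hδ : δ ^ 2 = algebraMap K M m) (hns : ¬ IsSquare m)
    (hn : IsSquare (Algebra.norm K (AdjoinRoot.mk f h)))
    (hs : ∃ s : M[X], f.map (algebraMap K M) ∣ h.map (algebraMap K M) - s ^ 2) :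
    ∃ s : K[X], f ∣ h - s ^ 2 := by
  have hδ' : ∀ a : K, algebraMap K M a ≠ δ := by
    intro a ha
    apply hns
    refine ⟨a, (algebraMap K M).injective ?_⟩
    rw [map_mul, ha, ← hδ, pow_two]
  obtain ⟨s, hs⟩ := hs
  obtain ⟨a, b, rfl⟩ := split_poly h2 hδ' s
  have e1 : h.map (algebraMap K M) - (a.map (algebraMap K M) + C δ * b.map (algebraMap K M)) ^ 2 =
      (h - a ^ 2 - C m * b ^ 2).map (algebraMap K M) + C δ * (-(2 * a * b)).map (algebraMap K M) := by
    have e2 : (C δ : M[X]) ^ 2 = (C m).map (algebraMap K M) := by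
      rw [← C_pow, hδ, map_C]
    simp only [Polynomial.map_sub, Polynomial.map_mul, Polynomial.map_pow, Polynomial.map_neg,
      Polynomial.map_ofNat] at e2 ⊢
    linear_combination (-(b.map (algebraMap K M)) ^ 2) * e2
  rw [e1] at hs
  obtain ⟨h3, h4⟩ := dvd_parts hδ' h2 hf hs
  have h5 : f ∣ a * b := by
    have h6 : f ∣ C (2 : K) * (a * b) := by
      have e3 : C (2 : K) * (a * b) = -(-(2 * a * b)) := by
        rw [show (C (2 : K) : K[X]) = 2 from map_ofNat C 2]
        ring
      rw [e3]
      exact (dvd_neg).2 h4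
    rcases hirr.prime.dvd_or_dvd h6 with h7 | h7
    · exfalso
      have h8 : IsUnit (C (2 : K)) := isUnit_C.2 (isUnit_iff_ne_zero.2 two_ne_zero)
      exact hirr.not_isUnit (isUnit_of_dvd_unit h7 h8)
    · exact h7
  rcases hirr.prime.dvd_or_dvd h5 with h6 | h6
  · -- the class is `m b ^ 2`
    exfalso
    have h7 : f ∣ h - C m * b ^ 2 := by
      have : h - C m * b ^ 2 = (h - a ^ 2 - C m * b ^ 2) + a * a := by ring
      rw [this]
      exact dvd_add h3 (h6.mul_left a)
    have h8 : AdjoinRoot.mk f h = AdjoinRoot.mk f (C m * b ^ 2) := AdjoinRoot.mk_eq_mk.2 h7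
    rw [h8, map_mul, map_pow, AdjoinRoot.mk_C, map_mul, map_pow] at hn
    have hfr : Module.finrank K (AdjoinRoot f) = 2 * g + 1 := by
      rw [(AdjoinRoot.powerBasis hirr.ne_zero).finrank, AdjoinRoot.powerBasis_dim, hd]
    have h9 : Algebra.norm K (AdjoinRoot.of f m) = m ^ (2 * g + 1) := by
      have := Algebra.norm_algebraMap_of_basis (AdjoinRoot.powerBasis hirr.ne_zero).basis m
      rw [Fintype.card_fin, AdjoinRoot.powerBasis_dim, hd] at this
      exact this
    rw [h9] at hn
    obtain ⟨t, ht⟩ := hn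
    have hb0 : Algebra.norm K (AdjoinRoot.mk f b) ≠ 0 := by
      haveI : Fact (Irreducible f) := ⟨hirr⟩
      haveI : FiniteDimensional K (AdjoinRoot f) := (AdjoinRoot.powerBasis hirr.ne_zero).finite
      rw [Ne, Algebra.norm_eq_zero_iff, AdjoinRoot.mk_eq_zero]
      intro hb
      obtain ⟨u, v, huv⟩ := hcop
      have h10 : f ∣ h := by
        have : h = (h - C m * b ^ 2) + C m * b * b := by ring
        rw [this]
        exact dvd_add h7 (hb.mul_left _)
      have h11 : f ∣ 1 := by
        rw [← huv]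
        exact dvd_add (h10.mul_left u) (dvd_mul_left f v)
      exact hirr.not_isUnit (isUnit_of_dvd_one h11)
    have hm0 : m ≠ 0 := by
      rintro rfl
      exact hns ⟨0, by ring⟩
    apply hns
    refine ⟨t / (m ^ g * Algebra.norm K (AdjoinRoot.mk f b)), ?_⟩
    have hmg : m ^ g ≠ 0 := pow_ne_zero _ hm0
    field_simp
    rw [pow_two] at ht
    have e4 : m * (m ^ g) ^ 2 = m ^ (2 * g + 1) := by ring
    linear_combination ht
  · refine ⟨a, ?_⟩
    have : h - a ^ 2 = (h - a ^ 2 - C m * b ^ 2) + C m * b * b := by ring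
    rw [this]
    exact dvd_add h3 (h6.mul_left _)

end quad

section sel

variable {F : Type} [Field F] [NumberField F]

theorem fF_scale {f : (𝓞 F)[X]} (hm : f.Monic) (c : 𝓞 F) :
    fF (f.scaleRoots c) = (fF f).scaleRoots (c : F) := by
  refine Polynomial.ext fun j => ?_
  unfold fF
  rw [coeff_map, coeff_scaleRoots, coeff_scaleRoots, coeff_map, hm.natDegree_map, map_mul, map_pow]

/-- **From the quadratic extension to the quadratic twist.** -/
theorem sel_down {M : Type} [Field M] [NumberField M] [Algebra F M] (h2 : Module.finrank F M = 2)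
    {g : ℕ} {f : (𝓞 F)[X]} (hm : f.Monic) (hd : f.natDegree = 2 * g + 1) (hirr : Irreducible (fF f))
    {m : 𝓞 F} {δ : M} (hδ : δ ^ 2 = algebraMap F M (m : F)) (hns : ¬ IsSquare (m : F))
    (hsel : SelZero (fo M f)) : SelZero (f.scaleRoots m) := by
  have hm0 : (m : F) ≠ 0 := by
    intro h0
    exact hns ⟨0, by rw [h0]; ring⟩
  have hmF : (fF f).Monic := hm.map _
  have hdF : (fF f).natDegree = 2 * g + 1 := by
    unfold fF
    rw [hm.natDegree_map, hd]
  have hmM : (fF (fo M f)).Monic := by
    rw [Pool.Agent.H458.AG.Gen.fF_fo]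
    exact hmF.map _
  have eM : fF (fo M f) = (fF f).map (algebraMap F M) := Pool.Agent.H458.AG.Gen.fF_fo M f
  have hδ0 : δ ≠ 0 := by
    rintro rfl
    rw [zero_pow two_ne_zero] at hδ
    exact hm0 ((map_eq_zero _).1 hδ.symm)
  intro h hcop hn hloc hreal
  rw [fF_scale hm] at hcop hn
  obtain ⟨h', hh'⟩ : ∃ h' : F[X], h' = h.comp (C (m : F) * X) := ⟨_, rfl⟩
  have hcop' : IsCoprime h' (fF f) := by
    obtain ⟨u, v, huv⟩ := hcop
    have h3 := congrArg (fun p : F[X] => p.comp (C (m : F) * X)) huv
    simp only [add_comp, mul_comp, one_comp] at h3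
    rw [Pool.Agent.N457.PQ.scale_comp] at h3
    refine ⟨u.comp (C (m : F) * X), v.comp (C (m : F) * X) * C ((m : F) ^ (fF f).natDegree), ?_⟩
    rw [hh', mul_assoc]
    exact h3
  have hn' : IsSquare (Algebra.norm F (AdjoinRoot.mk (fF f) h')) := by
    rw [hh', ← norm_twist hirr hm0]
    exact hn
  -- the local conditions
  have key : ∀ (E : Type) [Field E] [CharZero E] (σ : M →+* E),
      LocIm E (((fF f).scaleRoots (m : F)).map (σ.comp (algebraMap F M)))
        (h.map (σ.comp (algebraMap F M))) →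
      LocIm E ((fF (fo M f)).map σ) ((h'.map (algebraMap F M)).map σ) := by
    intro E _ _ σ H
    have hσ0 : σ δ ≠ 0 := (_root_.map_ne_zero σ).2 hδ0
    have e3 : σ δ ^ 2 = (σ.comp (algebraMap F M)) (m : F) := by
      rw [← map_pow, hδ, RingHom.comp_apply]
    have h4 := Pool.Agent.N457.PQ.sqt E g ((fF f).map (σ.comp (algebraMap F M)))
      (h.map (σ.comp (algebraMap F M))) (σ δ) (hmF.map _) (by rw [hmF.natDegree_map, hdF]) hσ0
    rw [e3] at h4
    have e5 : ((fF f).scaleRoots (m : F)).map (σ.comp (algebraMap F M)) =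
        ((fF f).map (σ.comp (algebraMap F M))).scaleRoots ((σ.comp (algebraMap F M)) (m : F)) := by
      rw [map_scaleRoots]
      rw [hmF.leadingCoeff, map_one]
      exact one_ne_zero
    rw [e5] at H
    have h6 := h4 H
    have e7 : (fF (fo M f)).map σ = (fF f).map (σ.comp (algebraMap F M)) := by
      rw [eM, Polynomial.map_map]
    have e8 : (h'.map (algebraMap F M)).map σ =
        (h.map (σ.comp (algebraMap F M))).comp (C ((σ.comp (algebraMap F M)) (m : F)) * X) := by
      rw [hh', Polynomial.map_map, Polynomial.map_comp, Polynomial.map_mul, map_C, map_X]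
    rw [e7, e8]
    exact h6
  have hres := hsel (h'.map (algebraMap F M)) (by
      rw [eM]
      exact hcop'.map (Polynomial.mapRingHom (algebraMap F M))) (by
      rw [eM, norm_map (algebraMap F M) hmF hdF]
      exact hn'.map (algebraMap F M)) (fun w => ?_) (fun ρ => ?_)
  · -- over `M`
    rw [eM] at hres
    obtain ⟨s, hs⟩ := square_down h2 hmF hdF hirr hcop' hδ hns hn' hres
    rw [fF_scale hm]
    refine ⟨s.comp (C ((m : F)⁻¹) * X), ?_⟩
    obtain ⟨q, hq⟩ := hs
    have h3 := congrArg (fun p : F[X] => p.comp (C ((m : F)⁻¹) * X)) hq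
    simp only [sub_comp, mul_comp, pow_comp] at h3
    have e9 : h'.comp (C ((m : F)⁻¹) * X) = h := by
      rw [hh', comp_assoc, mul_comp, C_comp, X_comp, ← mul_assoc, ← C_mul, mul_inv_cancel₀ hm0, C_1,
        one_mul, comp_X]
    have e10 : (fF f).comp (C ((m : F)⁻¹) * X) =
        C (((m : F) ^ (fF f).natDegree)⁻¹) * (fF f).scaleRoots (m : F) := by
      have h11 := congrArg (fun p : F[X] => p.comp (C ((m : F)⁻¹) * X))
        (Pool.Agent.N457.PQ.scale_comp (fF f) (m : F))
      simp only [mul_comp, C_comp] at h11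
      rw [comp_assoc, mul_comp, C_comp, X_comp, ← mul_assoc, ← C_mul, mul_inv_cancel₀ hm0, C_1,
        one_mul, comp_X] at h11
      rw [h11, ← mul_assoc, ← C_mul, inv_mul_cancel₀ (pow_ne_zero _ hm0), C_1, one_mul]
    rw [e9, e10] at h3
    rw [h3]
    exact ⟨C (((m : F) ^ (fF f).natDegree)⁻¹) * q.comp (C ((m : F)⁻¹) * X), by ring⟩
  · haveI : CharZero (w.adicCompletion M) :=
      charZero_of_injective_algebraMap (algebraMap M (w.adicCompletion M)).injective
    refine key (w.adicCompletion M) (algebraMap M (w.adicCompletion M)) ?_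
    obtain ⟨ι, hι, -, -⟩ := Pool.Agent.N814.JM.cpl F M (𝓞 F) (𝓞 M) (below F w) w (lies_below' w)
    have h3 : LocIm ((below F w).adicCompletion F)
        ((fF (f.scaleRoots m)).map (algebraMap F ((below F w).adicCompletion F)))
        (h.map (algebraMap F ((below F w).adicCompletion F))) := hloc (below F w)
    have h4 := Pool.Agent.N874.QM.locIm_map ι h3
    rw [fF_scale hm, Polynomial.map_map, Polynomial.map_map] at h4
    have e : ι.comp (algebraMap F ((below F w).adicCompletion F)) =
        (algebraMap M (w.adicCompletion M)).comp (algebraMap F M) := RingHom.ext hι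
    rw [e] at h4
    exact h4
  · refine key ℝ ρ ?_
    have h3 := hreal (ρ.comp (algebraMap F M))
    rw [fF_scale hm] at h3
    exact h3

/-- The twist by `m` over `F` from the extension `F(√m)`. -/
theorem twist_down {M : Type} [Field M] [NumberField M] [Algebra F M] (h2 : Module.finrank F M = 2)
    {g : ℕ} {f : (𝓞 F)[X]} (hm : f.Monic) (hd : f.natDegree = 2 * g + 1) (hirr : Irreducible (fF f))
    {m : 𝓞 F} {δ : M} (hδ : δ ^ 2 = algebraMap F M (m : F)) (hns : ¬ IsSquare (m : F))
    (hsel : SelZero (fo M f)) :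
    UniquelyTwoDivisible (((f.scaleRoots m).map (algebraMap (𝓞 F) F)).map (algebraMap F F)) ∧
      ShaTwoTrivialReal (((f.scaleRoots m).map (algebraMap (𝓞 F) F)).map (algebraMap F F)) (𝓞 F) := by
  have hm0 : m ≠ 0 := by
    rintro rfl
    exact hns ⟨0, by simp⟩
  refine Pool.Agent.H458.AG.Gen.key (n := 0) (by rw [Module.finrank_self, pow_zero])
    ((monic_scaleRoots_iff _).2 hm) (by rw [natDegree_scaleRoots, hd]; exact odd_two_mul_add_one g)
    (Pool.Agent.H458.AG.Gen.irr_scale hm0 hm hirr) ?_
  have h3 := sel_down h2 hm hd hirr hδ hns hsel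
  have e : fo F (f.scaleRoots m) = f.scaleRoots m := Polynomial.map_id
  rw [e]
  exact h3

end sel

end Pool.Agent.H458.AG.Quad
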