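import Pool.Agent.H459.UT.Quad
import Pool.Agent.H459.UF.IrrQ
import Pool.Agent.H459.UF.RealP

/-!
# Project AG (helper458): towers for polynomials of odd degree; statements

The versions for all odd degrees of `Pool.Agent.H459.UF.irr_quad` (`H459/UF/IrrQ.lean`), `Pool.Agent.H459.UF.real_one`
(`H459/UF/RealP.lean`) and `Pool.Agent.H459.UT.towerT` (`H459/UT/Quad.lean`), which are for degree three.
-/

set_option autoImplicit false
set_option linter.all false

open Polynomial IsDedekindDomain NumberField WithZero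
open scoped Classical IntermediateField

namespace Pool.Agent.H458.AG

open Pool.Agent.H459.UF (below DQ Unr fo fb)
open Pool.Agent.H459.UT (TOK PKT DatT)
open Pool.Agent.N783.PF (rd fF)

/-- **S_IRQ** (irreducible polynomials of odd degree stay irreducible in extensions of degree at most two).

Proof. As in `irr_quad`: there is `φ : 𝓞 K ⧸ v → 𝓞 K₁ ⧸ w`, `v = below K w`, and every element of `k₁ = 𝓞 K₁ ⧸ w` is a
zero of a monic polynomial of degree at most two over `k = 𝓞 K ⧸ v`; so `[k₁ : k] ≤ 2` (finite fields: `k₁ = k(a)` for a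
generator `a` of `k₁ˣ`). Let `p = rd v (fo K f)`, irreducible of odd degree `n` over `k`, and let `r` be an irreducible
factor of `p` over `k₁`, `a` a zero of `r` (`AdjoinRoot r`). `[k(a) : k] = n` divides `[k₁(a) : k] = deg r * [k₁ : k]`, and
`n` is odd, so `n ∣ deg r`; hence `r` is associated to `p`. -/
def S_IRQ : Prop := ∀ (F K K₁ : Type) [Field F] [NumberField F] [Field K] [NumberField K] [Field K₁]
  [NumberField K₁] [Algebra F K] [Algebra K K₁] [Algebra F K₁] [IsScalarTower F K K₁] (f : (𝓞 F)[X]),
  f.Monic → Odd f.natDegree → Module.finrank K K₁ ≤ 2 → ∀ w : HeightOneSpectrum (𝓞 K₁),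
  Irreducible (rd (below K w).asIdeal (fo K f)) → Irreducible (rd w.asIdeal (fo K₁ f))

/-- **S_REAL1** (the real condition is automatic if there is only one real zero).

Proof. Take the empty list in `LocIm`: we need `s` with `F.map σ ∣ p.map σ - s ^ 2`. `F` is irreducible over a field of
characteristic zero, so `F₁ = F.map σ` is squarefree, `F₁ = (X - e) * Q` with `Q` without real zero. The norm of `mk F p` is
mapped by `σ` to the resultant, the product of the values of `p.map σ` at the complex zeros of `F₁`, that is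
`p(e)` times a product of squares of absolute values `|p(z)| ^ 2 > 0` (pairs of conjugate zeros), and it is the square
of a non-zero real number; so `p(e) > 0`. `ℝ[X] / (F₁)` is isomorphic to `ℝ × ℝ[X] / (Q)`, and in `ℝ[X] / (Q)` (a product
of copies of `ℂ`) every unit is a square: for every irreducible (quadratic) factor `q` of `Q` the field `ℝ[X] / (q)` is
isomorphic to `ℂ`; Chinese remainder theorem. -/
def S_REAL1 : Prop := ∀ (K : Type) [Field K] [CharZero K] (F : K[X]), F.Monic → Irreducible F →
  ∀ σ : K →+* ℝ, (∃! e : ℝ, (F.map σ).eval e = 0) → ∀ p : K[X], IsCoprime p F →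
  IsSquare (Algebra.norm K (AdjoinRoot.mk F p)) → Pool.Agent.N783.PQ.LocIm ℝ (F.map σ) (p.map σ)

/-- The conditions on a Galois extension `M` of `K`. -/
structure TCG (F K M : Type) [Field F] [NumberField F] [Field K] [NumberField K] [Field M]
    [NumberField M] [Algebra F K] [Algebra K M] [Algebra F M]
    (Bw : HeightOneSpectrum (𝓞 F) → Prop) (f : (𝓞 F)[X]) (J : Finset ℕ)
    (𝔮 : ℕ → Ideal (𝓞 F)) : Prop where
  unr : ∀ v : HeightOneSpectrum (𝓞 K), ¬ Bw (below F v) →
    Unr K M v ∨ Irreducible (rd v.asIdeal (fo K f))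
  q : DQ F M J 𝔮
  real : ∀ σ : K →+* ℝ, (∃ ρ : M →+* ℝ, ρ.comp (algebraMap K M) = σ) ∨
    ∃! e : ℝ, ((fF f).map (σ.comp (algebraMap F K))).eval e = 0

/-- **S_TOW** (the tower; assume `S_IRQ` and `S_REAL1`).

Proof. Copy the proof of `Pool.Agent.H459.UT.towerT` (`H459/UT/Quad.lean`); replace `irr_quad` by `S_IRQ` (`H.odd`) and
`real_one` by `S_REAL1` (`One` by the existence of exactly one real zero). -/
def S_TOW : Prop := ∀ (F M : Type) [Field F] [NumberField F] [Field M] [NumberField M] [Algebra F M]
  (Bw : HeightOneSpectrum (𝓞 F) → Prop) (T : M[X] → Prop) (f : (𝓞 F)[X]) (J : Finset ℕ)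
  (𝔮 : ℕ → Ideal (𝓞 F)), DatT f J 𝔮 → TOK F M f T → ∀ (n : ℕ) (K : Type)
  [Field K] [NumberField K] [Algebra F K] [Algebra K M] [IsScalarTower F K M] [IsGalois K M],
  Module.finrank K M = 2 ^ n → TCG F K M Bw f J 𝔮 → PKT F K M Bw T f J 𝔮 → PKT F M M Bw T f J 𝔮

end Pool.Agent.H458.AG
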