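import Pool.Agent.H458.AG.Def
import Pool.Agent.H459.UD.FinD

/-!
# Project AG (helper458): the twist of one curve

From `Pool.Agent.H459.UD.twD` (helper459).
-/

set_option autoImplicit false
set_option linter.all false

open Polynomial Matrix IsDedekindDomain NumberField
open scoped Classical IntermediateField

namespace Pool.Agent.H458.AG

open Pool.Agent.H459.UF (below below_self DQ fo fb fb_self fo_self dns_of_surj)
open Pool.Agent.H459.UT (GoodT FamT TOK PKT CndT DatT baseT selMT UG LL)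
open Pool.Agent.H459.UD (CB tokB sq_of_mod)
open Pool.Agent.N874.JM (LocF)
open Pool.Agent.N783.PQ (LocIm)
open Pool.Agent.N783.PF (Bd Cg sp rd Ht GoodS LBad Weak dsc fF IsGen SelZero Dp)
open Pool.Agent.H458.AU (PrQ)

/-- The standard Gram matrix is unimodular. -/
theorem ug_ga {F : Type} [Field F] [NumberField F] (g : ℕ) (w : HeightOneSpectrum (𝓞 F)) :
    UG (GA g (w.adicCompletion F)) := by
  have h1 : ∀ i j, Valued.v (GA g (w.adicCompletion F) i j) ≤ 1 := by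
    intro i j
    unfold GA
    rw [Matrix.of_apply]
    split_ifs
    · rw [map_one]
    · rw [map_zero]
      exact zero_le_one
  refine ⟨h1, GA g _, h1, ?_⟩
  refine Matrix.ext fun i j => ?_
  rw [Matrix.mul_apply, Matrix.one_apply]
  have h2 : ∀ l : Fin (2 * g + 1), GA g (w.adicCompletion F) i l * GA g (w.adicCompletion F) l j =
      if l = ⟨2 * g - i, by omega⟩ then (if i = j then 1 else 0) else 0 := by
    intro l
    unfold GA
    rw [Matrix.of_apply, Matrix.of_apply]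
    have hi := i.2
    have hl := l.2
    have hj := j.2
    by_cases h3 : l = ⟨2 * g - i, by omega⟩
    · rw [if_pos h3]
      have h4 : (l : ℕ) = 2 * g - i := congrArg Fin.val h3
      rw [if_pos (by omega), one_mul]
      by_cases h5 : i = j
      · rw [if_pos h5, if_pos (by rw [← h5]; omega)]
      · rw [if_neg h5, if_neg (fun h6 => h5 (Fin.ext (by omega)))]
    · rw [if_neg h3, if_neg (fun h4 => h3 (Fin.ext (by simp; omega))), zero_mul]
  rw [Finset.sum_congr rfl fun l _ => h2 l, Finset.sum_ite_eq' Finset.univ, if_pos (Finset.mem_univ _)]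

section

variable {F : Type} [Field F] [NumberField F]

theorem good_S {g W : ℕ} {S : Finset ℕ} {𝔮 : ℕ → Ideal (𝓞 F)} {P : ℕ → (𝓞 F)[X]} (hg : 1 ≤ g)
    (hW : 0 < W) (hgW : 2 * g + 1 ≤ W) (hP : ∀ q ∈ S, Pol g (P q))
    (hS : ∀ q ∈ S, PrQ W q (𝔮 q)) (hG : ∀ q ∈ S, Gq q (𝔮 q) (P q)) :
    GoodS g W S 𝔮 (fun q => (P q).divX) P := by
  intro q hq
  have h1 := hS q hq
  have h2 := hG q hq
  have h3 := hP q hq
  obtain ⟨h8, -⟩ := h1.mod8 hW
  have hd : (P q).divX.natDegree = 2 * g := by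
    rw [natDegree_divX_eq_natDegree_tsub_one, h3.deg]
    omega
  have hm : (P q).divX.Monic := by
    rw [Monic, leadingCoeff, hd, coeff_divX, ← h3.deg]
    exact h3.mon
  refine ⟨h1.pr, h1.big, lt_of_le_of_lt hgW h1.big, h8, h1.unr, h1.qp, h1.mem, hm, hd, h2.2.1, h3.mon,
    h3.deg, h3.tr, ?_, h2.2.2⟩
  intro j
  rcases j with _ | j
  · rw [mul_coeff_zero, coeff_X_zero, zero_mul, sub_zero]
    exact h2.1
  · rw [coeff_X_mul, coeff_divX, sub_self]
    exact Ideal.zero_mem _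

/-- From a polynomial which is not bad to a twist with zero 2-Selmer group. -/
theorem tw_of (hLLs : S_LL) (F : Type) [Field F] [NumberField F] (g : ℕ) (hg : 1 ≤ g) : ∃ κ : ℕ,
    ∀ (B N W : ℕ) (S : Finset ℕ) (𝔮 : ℕ → Ideal (𝓞 F)) (f' f : (𝓞 F)[X]), κ ≤ W → 0 < W → 2 ∣ W →
    2 * g + 1 ≤ W → (∀ q ∈ S, PrQ W q (𝔮 q)) → f = f'.scaleRoots (((2 * W) ^ 2 : ℕ) : 𝓞 F) →
    Pol g f' → Irreducible (fF f') → Ht g B f → (∀ q ∈ S, Gq q (𝔮 q) f) →
    (∀ v : HeightOneSpectrum (𝓞 F), (W : 𝓞 F) ∉ v.asIdeal → dsc g f ∈ v.asIdeal ^ 2 →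
      B ^ Module.finrank ℚ F ≤ Ideal.absNorm v.asIdeal ^ 2 ∧ Weak v.asIdeal f) →
    2 ^ κ * B ≤ 4 ^ N → 1 ≤ B → ¬ BadS g N κ S 𝔮 f → Irreducible (fF f) →
    ∃ J ⊆ S, SelZero (f.scaleRoots ((Dp J : ℕ) : 𝓞 F)) := by
  obtain ⟨κ₁, hκ₁⟩ := Pool.Agent.H459.UT.core g F hg
  obtain ⟨κ₂, hκ₂⟩ := Pool.Agent.H459.UT.sqf g F hg
  refine ⟨max κ₁ κ₂, fun B N W S 𝔮 f' f hW hW0 h2W hgW hS hff' hP' hirr' hHt hG hwk hBN hB hnb hirr => ?_⟩
  have hBN1 : 2 ^ κ₁ * B ≤ 4 ^ N :=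
    (Nat.mul_le_mul_right _ (Nat.pow_le_pow_right (by norm_num) (le_max_left _ _))).trans hBN
  have hBN2 : 2 ^ κ₂ * B ≤ 4 ^ N :=
    (Nat.mul_le_mul_right _ (Nat.pow_le_pow_right (by norm_num) (le_max_right _ _))).trans hBN
  have hnb1 : ¬ LBad g N κ₁ S 𝔮 (fun _ => f) f := fun h =>
    hnb (Pool.Agent.N170.PF.LBad.mono (le_max_left _ _) h)
  have hnb2 : ¬ LBad g N κ₂ S 𝔮 (fun _ => f) f := fun h =>
    hnb (Pool.Agent.N170.PF.LBad.mono (le_max_right _ _) h)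
  have hm := hHt.mon
  have hd : f.natDegree = 2 * g + 1 := hHt.deg
  have hGS : GoodS g W S 𝔮 (fun _ => f.divX) (fun _ => f) :=
    good_S (P := fun _ => f) hg hW0 hgW (fun q _ => pol_of_ht hHt) hS hG
  obtain ⟨Bw, hBw⟩ : ∃ Bw : HeightOneSpectrum (𝓞 F) → Prop, Bw = fun v => (W : 𝓞 F) ∈ v.asIdeal :=
    ⟨_, rfl⟩
  have hBwv : ∀ v, Bw v ↔ (W : 𝓞 F) ∈ v.asIdeal := by
    intro v
    rw [hBw]
  have hB2 : ∀ v, ¬ Bw v → (2 : 𝓞 F) ∉ v.asIdeal := by
    intro v hv h2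
    apply hv
    rw [hBwv]
    obtain ⟨d, hd⟩ := h2W
    rw [hd, Nat.cast_mul]
    exact Ideal.mul_mem_right _ _ (by exact_mod_cast h2)
  have hF : FamT g B W Bw f S (fun _ => f) f := by
    refine ⟨hHt, fun j => by rw [sub_self]; exact Ideal.zero_mem _,
      fun q hq j => by rw [sub_self]; exact Ideal.zero_mem _, fun v hv hd => hwk v ?_ hd⟩
    rwa [hBwv] at hv
  have hsq := hκ₂ B N W Bw f S 𝔮 (fun _ => f.divX) (fun _ => f) f ((le_max_right _ _).trans hW)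
    hGS hF hirr hBN2 hnb2 hB2
  obtain ⟨L, _, _, _, θ, hc⟩ := Pool.Agent.N667.PF.gen F g f hm hd hirr
  have hqB : ∀ q ∈ S, ∀ w, Bw w → (q : 𝓞 F) ∉ w.asIdeal := by
    intro q hq w hw hqw
    rw [hBwv] at hw
    have hco : Nat.Coprime q W := by
      rw [Nat.Prime.coprime_iff_not_dvd (hS q hq).pr]
      intro hdv
      have h1 := Nat.le_of_dvd hW0 hdv
      have h2 := (hS q hq).big
      omega
    obtain ⟨u, v, huv⟩ := (Nat.isCoprime_iff_coprime.2 hco)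
    apply w.isPrime.ne_top
    rw [Ideal.eq_top_iff_one]
    have e : (1 : 𝓞 F) = (u : 𝓞 F) * (q : 𝓞 F) + (v : 𝓞 F) * (W : 𝓞 F) := by
      exact_mod_cast (congrArg (fun z : ℤ => (z : 𝓞 F)) huv).symm
    rw [e]
    exact Ideal.add_mem _ (Ideal.mul_mem_left _ _ hqw) (Ideal.mul_mem_left _ _ hw)
  obtain ⟨Q, hQ⟩ : ∃ Q : F[X] → Prop, Q = CB F W f := ⟨_, rfl⟩
  have hTOF : TOK F F f (CB F W f) := tokB W f
  have hQm : ∀ h h' : F[X], Q h → Q h' → Q (h * h') := by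
    rw [hQ]
    exact hTOF.mul
  have hQ1 : Q 1 := by
    rw [hQ]
    have := hTOF.sq 1
    rwa [one_pow] at this
  have hLL : ∀ h : F[X], aeval θ h ≠ 0 → IsSquare (Algebra.norm F (aeval θ h)) → Q h →
      ∀ w : HeightOneSpectrum (𝓞 F), Bw w →
      ∃ (G : Pool.Agent.N352.PJ.Mt g (w.adicCompletion F))
        (lam lam₁ : L → Fin (2 * g + 1) → w.adicCompletion F),
        UG G ∧ LL hc w (aeval θ h) G lam ∧ LL hc w 1 G lam₁ := by
    have key : ∀ h : F[X], aeval θ h ≠ 0 → IsSquare (Algebra.norm F (aeval θ h)) → Q h →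
        ∀ w : HeightOneSpectrum (𝓞 F), Bw w →
        ∃ lam, LL hc w (aeval θ h) (GA g (w.adicCompletion F)) lam := by
      intro h h0 hN hh w hw
      rw [hQ] at hh
      have h1 := hh w ((hBwv w).1 hw)
      rw [fb_self] at h1
      subst hff'
      exact hLLs F L g W f' θ w hg hP'.mon hP'.deg hirr' hW0 ((hBwv w).1 hw) hc h h0 hN h1
    intro h h0 hN hh w hw
    obtain ⟨lam, hlam⟩ := key h h0 hN hh w hw
    obtain ⟨lam₁, hlam₁⟩ := key 1 (by rw [map_one]; exact one_ne_zero)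
      (by rw [map_one, map_one]; exact IsSquare.one) hQ1 w hw
    rw [map_one] at hlam₁
    exact ⟨GA g _, lam, lam₁, ug_ga g w, hlam, hlam₁⟩
  have hfinB : {w | Bw w}.Finite := by
    have h1 : ({w | Bw w} : Set (HeightOneSpectrum (𝓞 F))) = {w | (W : 𝓞 F) ∈ w.asIdeal} := by
      ext w
      exact hBwv w
    rw [h1]
    exact Pool.Agent.N644.PQ.HunC.finite_over (W : 𝓞 F) (by exact_mod_cast hW0.ne')
  obtain ⟨J, hJ, hcore⟩ := hκ₁ L f θ B N W S 𝔮 (fun _ => f.divX) (fun _ => f) Bw Q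
    ((le_max_left _ _).trans hW) hc hfinB
    (fun v hv => ⟨hB2 v hv, hsq v hv⟩) hqB hGS hF.ht hF.con hBN1 hnb1 hQ1 hQm hLL
  obtain ⟨D, hD⟩ : ∃ D : ℕ, D = Dp J := ⟨_, rfl⟩
  have hD0 : D ≠ 0 := by
    rw [hD, Dp, Finset.prod_ne_zero_iff]
    exact fun q hq => (hS q (hJ hq)).pr.ne_zero
  refine ⟨J, hJ, ?_⟩
  have hDQ : DQ F F J 𝔮 := by
    intro q hq w hw
    exact dns_of_surj Function.surjective_id w
  have hcQ : ∀ q ∈ S, Cg (𝔮 q) f (X * (fun _ => f.divX) q) := by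
    intro q hq j
    obtain ⟨-, -, -, -, -, -, a2, -, -, -, -, -, -, a3, -⟩ := hGS q hq
    exact a3 j
  have hPK : PKT F F F Bw (CB F W f) f J 𝔮 := by
    refine baseT (fun v hv => ⟨hB2 v hv, hsq v hv⟩) hg hm hd hGS hF.con hJ hqB F (CB F W f) Q
      ?_ L θ hc hcore
    intro h h0 hN hT
    rw [hQ]
    have e : h.map (algebraMap F F) = h := by
      rw [Algebra.algebraMap_self, Polynomial.map_id]
    rwa [e] at hT
  have H : DatT f J 𝔮 := ⟨hm, g, W, S, _, _, hg, hd, hGS, hcQ, hJ⟩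
  have hirrM : Irreducible (fb F f) := by
    rw [fb_self]
    exact hirr
  have hDW : D % (8 * W) = 1 % (8 * W) := by
    rw [hD]
    exact Pool.Agent.H459.UD.dp_mod (fun q hq => (hS q hq).mod) hJ
  have h6 := selMT H hPK hDQ hirrM hB2 (by
    intro w hw
    rw [below_self, hBwv] at hw
    rw [← hD]
    exact sq_of_mod hw hDW hD0) (by
    intro p hp w hw
    refine hp w ?_
    rw [below_self, hBwv]
    exact hw)
  rwa [fo_self] at h6

end

end Pool.Agent.H458.AG
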