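import Pool.Agent.H458.AG.Tw
import Pool.Agent.H458.AG.Tow

/-!
# Project AG (helper458): the twist of one curve over all the extensions in a class

From `Pool.Agent.H459.UD.twD` (helper459).
-/

set_option autoImplicit false
set_option linter.all false

open Polynomial Matrix IsDedekindDomain NumberField
open scoped Classical IntermediateField

namespace Pool.Agent.H458.AG

open Pool.Agent.H459.UF (below mem_below below_self below_below exists_above DQ Unr Deg1 fo fb fb_self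
  fo_self dns_of_surj dns_of_deg1 two_of_dns)
open Pool.Agent.H459.UT (GoodT FamT TOK PKT CndT DatT baseT selMT UG LL)
open Pool.Agent.H459.UD (CB tokB sq_of_mod)
open Pool.Agent.N874.JM (LocF)
open Pool.Agent.N783.PQ (LocIm)
open Pool.Agent.N783.PF (Bd Cg sp rd Ht GoodS LBad Weak dsc fF IsGen SelZero Dp)
open Pool.Agent.H458.AU (PrQ)

/-- The class of extensions `M` of `F` which belongs to the integer `R` and the polynomial `f`. -/
structure ClsM (F M : Type) [Field F] [NumberField F] [Field M] [NumberField M] [Algebra F M]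
    (R : ℕ) (f : (𝓞 F)[X]) : Prop where
  spl : ∀ v : HeightOneSpectrum (𝓞 F), (R : 𝓞 F) ∈ v.asIdeal → Unr F M v ∧ Deg1 F M v
  unr : ∀ v : HeightOneSpectrum (𝓞 F), Unr F M v ∨ Irreducible (rd v.asIdeal f)
  real : ∀ σ : F →+* ℝ, (∃ ρ : M →+* ℝ, ρ.comp (algebraMap F M) = σ) ∨
    ∃! e : ℝ, ((fF f).map σ).eval e = 0

section

variable {F : Type} [Field F] [NumberField F]

theorem rd_scale {c : ℕ} {v : HeightOneSpectrum (𝓞 F)} (hc : (c : 𝓞 F) ∉ v.asIdeal)
    {f : (𝓞 F)[X]} (hm : f.Monic) (h : Irreducible (rd v.asIdeal f)) :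
    Irreducible (rd v.asIdeal (f.scaleRoots (c : 𝓞 F))) := by
  haveI m1 : v.asIdeal.IsMaximal := v.isMaximal
  letI i1 : Field (𝓞 F ⧸ v.asIdeal) := Ideal.Quotient.field _
  have hc' : Ideal.Quotient.mk v.asIdeal (c : 𝓞 F) ≠ 0 := by
    rwa [Ne, Ideal.Quotient.eq_zero_iff_mem]
  have e : rd v.asIdeal (f.scaleRoots (c : 𝓞 F)) =
      (rd v.asIdeal f).scaleRoots (Ideal.Quotient.mk v.asIdeal (c : 𝓞 F)) := by
    refine Polynomial.ext fun j => ?_
    unfold rd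
    rw [coeff_map, coeff_scaleRoots, coeff_scaleRoots, coeff_map, hm.natDegree_map, map_mul, map_pow]
  rw [e]
  exact Pool.Agent.N170.PF.irr_scale hc' h

theorem one_scale {c : ℕ} (hc : 0 < c) {f : (𝓞 F)[X]} (hm : f.Monic) (σ : F →+* ℝ)
    (h : ∃! e : ℝ, ((fF f).map σ).eval e = 0) :
    ∃! e : ℝ, ((fF (f.scaleRoots (c : 𝓞 F))).map σ).eval e = 0 := by
  have hc0 : (c : ℝ) ≠ 0 := Nat.cast_ne_zero.2 hc.ne'
  have e1 : ∀ x : ℝ, ((fF (f.scaleRoots (c : 𝓞 F))).map σ).eval ((c : ℝ) * x) =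
      (c : ℝ) ^ f.natDegree * ((fF f).map σ).eval x := by
    intro x
    have e2 : (fF (f.scaleRoots (c : 𝓞 F))).map σ = ((fF f).map σ).scaleRoots (c : ℝ) := by
      refine Polynomial.ext fun j => ?_
      unfold fF
      rw [coeff_map, coeff_map, coeff_scaleRoots, coeff_scaleRoots, coeff_map, coeff_map,
        (hm.map _).natDegree_map, hm.natDegree_map, map_mul, map_mul, map_pow, map_pow, map_natCast,
        map_natCast]
    have e3 : ((fF f).map σ).natDegree = f.natDegree := by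
      unfold fF
      rw [(hm.map _).natDegree_map, hm.natDegree_map]
    rw [e2]
    have h1 := scaleRoots_eval₂_mul (p := (fF f).map σ) (RingHom.id ℝ) x (c : ℝ)
    rw [e3] at h1
    exact h1
  obtain ⟨e, he, hu⟩ := h
  refine ⟨c * e, ?_, fun y hy => ?_⟩
  · beta_reduce at he ⊢
    rw [e1, he, mul_zero]
  · beta_reduce at hy
    have h2 : y = (c : ℝ) * (y / c) := by field_simp
    rw [h2, e1] at hy
    have h3 := (mul_eq_zero.1 hy).resolve_left (pow_ne_zero _ hc0)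
    rw [h2, hu _ h3]

/-- From a polynomial which is not bad to a twist with zero 2-Selmer groups. -/
theorem tw_of2 (hLLs : S_LL) (hTOW : S_TOW) (F : Type) [Field F] [NumberField F] (g : ℕ)
    (hg : 1 ≤ g) : ∃ κ : ℕ,
    ∀ (B N W : ℕ) (S : Finset ℕ) (𝔮 : ℕ → Ideal (𝓞 F)) (f' f : (𝓞 F)[X]), κ ≤ W → 0 < W → 2 ∣ W →
    2 * g + 1 ≤ W → (∀ q ∈ S, PrQ W q (𝔮 q)) → f = f'.scaleRoots (((2 * W) ^ 2 : ℕ) : 𝓞 F) →
    Pol g f' → Irreducible (fF f') → Ht g B f → (∀ q ∈ S, Gq q (𝔮 q) f) →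
    (∀ v : HeightOneSpectrum (𝓞 F), (W : 𝓞 F) ∉ v.asIdeal → dsc g f ∈ v.asIdeal ^ 2 →
      B ^ Module.finrank ℚ F ≤ Ideal.absNorm v.asIdeal ^ 2 ∧ Weak v.asIdeal f) →
    2 ^ κ * B ≤ 4 ^ N → 1 ≤ B → ¬ BadS g N κ S 𝔮 f → Irreducible (fF f) →
    ∀ R : ℕ, W ∣ R → (∀ q ∈ S, q ∣ R) →
    ∃ J ⊆ S, ∀ (M : Type) [Field M] [NumberField M] [Algebra F M] [IsGalois F M] (n : ℕ),
      Module.finrank F M = 2 ^ n → ClsM F M R f' →
      SelZero ((fo M f).scaleRoots ((Dp J : ℕ) : 𝓞 M)) := by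
  obtain ⟨κ₁, hκ₁⟩ := Pool.Agent.H459.UT.core g F hg
  obtain ⟨κ₂, hκ₂⟩ := Pool.Agent.H459.UT.sqf g F hg
  refine ⟨max κ₁ κ₂, fun B N W S 𝔮 f' f hW hW0 h2W hgW hS hff' hP' hirr' hHt hG hwk hBN hB hnb hirr
    R hWR hSR => ?_⟩
  have hBN1 : 2 ^ κ₁ * B ≤ 4 ^ N :=
    (Nat.mul_le_mul_right _ (Nat.pow_le_pow_right (by norm_num) (le_max_left _ _))).trans hBN
  have hBN2 : 2 ^ κ₂ * B ≤ 4 ^ N :=
    (Nat.mul_le_mul_right _ (Nat.pow_le_pow_right (by norm_num) (le_max_right _ _))).trans hBN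
  have hnb1 : ¬ LBad g N κ₁ S 𝔮 (fun _ => f) f := fun h =>
    hnb (Pool.Agent.N170.PF.LBad.mono (le_max_left _ _) h)
  have hnb2 : ¬ LBad g N κ₂ S 𝔮 (fun _ => f) f := fun h =>
    hnb (Pool.Agent.N170.PF.LBad.mono (le_max_right _ _) h)
  have hm := hHt.mon
  have hd : f.natDegree = 2 * g + 1 := hHt.deg
  have hGS : GoodS g W S 𝔮 (fun _ => f.divX) (fun _ => f) :=
    good_S (P := fun _ => f) hg hW0 hgW (fun q _ => pol_of_ht hHt) hS hG
  obtain ⟨Bw, hBw⟩ : ∃ Bw : HeightOneSpectrum (𝓞 F) → Prop, Bw = fun v => (W : 𝓞 F) ∈ v.asIdeal :=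
    ⟨_, rfl⟩
  have hBwv : ∀ v, Bw v ↔ (W : 𝓞 F) ∈ v.asIdeal := by
    intro v
    rw [hBw]
  have hB2 : ∀ v, ¬ Bw v → (2 : 𝓞 F) ∉ v.asIdeal := by
    intro v hv h2
    apply hv
    rw [hBwv]
    obtain ⟨d, hd⟩ := h2W
    rw [hd, Nat.cast_mul]
    exact Ideal.mul_mem_right _ _ (by exact_mod_cast h2)
  have hF : FamT g B W Bw f S (fun _ => f) f := by
    refine ⟨hHt, fun j => by rw [sub_self]; exact Ideal.zero_mem _,
      fun q hq j => by rw [sub_self]; exact Ideal.zero_mem _, fun v hv hd => hwk v ?_ hd⟩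
    rwa [hBwv] at hv
  have hsq := hκ₂ B N W Bw f S 𝔮 (fun _ => f.divX) (fun _ => f) f ((le_max_right _ _).trans hW)
    hGS hF hirr hBN2 hnb2 hB2
  obtain ⟨L, _, _, _, θ, hc⟩ := Pool.Agent.N667.PF.gen F g f hm hd hirr
  have hqB : ∀ q ∈ S, ∀ w, Bw w → (q : 𝓞 F) ∉ w.asIdeal := by
    intro q hq w hw hqw
    rw [hBwv] at hw
    have hco : Nat.Coprime q W := by
      rw [Nat.Prime.coprime_iff_not_dvd (hS q hq).pr]
      intro hdv
      have h1 := Nat.le_of_dvd hW0 hdv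
      have h2 := (hS q hq).big
      omega
    obtain ⟨u, v, huv⟩ := (Nat.isCoprime_iff_coprime.2 hco)
    apply w.isPrime.ne_top
    rw [Ideal.eq_top_iff_one]
    have e : (1 : 𝓞 F) = (u : 𝓞 F) * (q : 𝓞 F) + (v : 𝓞 F) * (W : 𝓞 F) := by
      exact_mod_cast (congrArg (fun z : ℤ => (z : 𝓞 F)) huv).symm
    rw [e]
    exact Ideal.add_mem _ (Ideal.mul_mem_left _ _ hqw) (Ideal.mul_mem_left _ _ hw)
  obtain ⟨Q, hQ⟩ : ∃ Q : F[X] → Prop, Q = CB F W f := ⟨_, rfl⟩
  have hTOF : TOK F F f (CB F W f) := tokB W f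
  have hQm : ∀ h h' : F[X], Q h → Q h' → Q (h * h') := by
    rw [hQ]
    exact hTOF.mul
  have hQ1 : Q 1 := by
    rw [hQ]
    have := hTOF.sq 1
    rwa [one_pow] at this
  have hLL : ∀ h : F[X], aeval θ h ≠ 0 → IsSquare (Algebra.norm F (aeval θ h)) → Q h →
      ∀ w : HeightOneSpectrum (𝓞 F), Bw w →
      ∃ (G : Pool.Agent.N352.PJ.Mt g (w.adicCompletion F))
        (lam lam₁ : L → Fin (2 * g + 1) → w.adicCompletion F),
        UG G ∧ LL hc w (aeval θ h) G lam ∧ LL hc w 1 G lam₁ := by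
    have key : ∀ h : F[X], aeval θ h ≠ 0 → IsSquare (Algebra.norm F (aeval θ h)) → Q h →
        ∀ w : HeightOneSpectrum (𝓞 F), Bw w →
        ∃ lam, LL hc w (aeval θ h) (GA g (w.adicCompletion F)) lam := by
      intro h h0 hN hh w hw
      rw [hQ] at hh
      have h1 := hh w ((hBwv w).1 hw)
      rw [fb_self] at h1
      subst hff'
      exact hLLs F L g W f' θ w hg hP'.mon hP'.deg hirr' hW0 ((hBwv w).1 hw) hc h h0 hN h1
    intro h h0 hN hh w hw
    obtain ⟨lam, hlam⟩ := key h h0 hN hh w hw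
    obtain ⟨lam₁, hlam₁⟩ := key 1 (by rw [map_one]; exact one_ne_zero)
      (by rw [map_one, map_one]; exact IsSquare.one) hQ1 w hw
    rw [map_one] at hlam₁
    exact ⟨GA g _, lam, lam₁, ug_ga g w, hlam, hlam₁⟩
  have hfinB : {w | Bw w}.Finite := by
    have h1 : ({w | Bw w} : Set (HeightOneSpectrum (𝓞 F))) = {w | (W : 𝓞 F) ∈ w.asIdeal} := by
      ext w
      exact hBwv w
    rw [h1]
    exact Pool.Agent.N644.PQ.HunC.finite_over (W : 𝓞 F) (by exact_mod_cast hW0.ne')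
  obtain ⟨J, hJ, hcore⟩ := hκ₁ L f θ B N W S 𝔮 (fun _ => f.divX) (fun _ => f) Bw Q
    ((le_max_left _ _).trans hW) hc hfinB
    (fun v hv => ⟨hB2 v hv, hsq v hv⟩) hqB hGS hF.ht hF.con hBN1 hnb1 hQ1 hQm hLL
  obtain ⟨D, hD⟩ : ∃ D : ℕ, D = Dp J := ⟨_, rfl⟩
  have hD0 : D ≠ 0 := by
    rw [hD, Dp, Finset.prod_ne_zero_iff]
    exact fun q hq => (hS q (hJ hq)).pr.ne_zero
  refine ⟨J, hJ, fun M _ _ _ _ n hn hM => ?_⟩
  have hsplW : ∀ v : HeightOneSpectrum (𝓞 F), (W : 𝓞 F) ∈ v.asIdeal → Unr F M v ∧ Deg1 F M v := by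
    intro v hv
    refine hM.spl v ?_
    obtain ⟨m, hm⟩ := hWR
    rw [hm, Nat.cast_mul]
    exact Ideal.mul_mem_right _ _ hv
  have hDQ : DQ F M J 𝔮 := by
    intro q hq w hw
    obtain ⟨h1, h2⟩ := hM.spl (below F w) (by
      obtain ⟨m, hm⟩ := hSR q (hJ hq)
      rw [hm, Nat.cast_mul]
      refine Ideal.mul_mem_right _ _ ?_
      rw [hw]
      exact (hS q (hJ hq)).mem)
    exact dns_of_deg1 h1 h2
  have hcQ : ∀ q ∈ S, Cg (𝔮 q) f (X * (fun _ => f.divX) q) := by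
    intro q hq j
    obtain ⟨-, -, -, -, -, -, a2, -, -, -, -, -, -, a3, -⟩ := hGS q hq
    exact a3 j
  have hPK : PKT F F M Bw (CB M W f) f J 𝔮 := by
    refine baseT (fun v hv => ⟨hB2 v hv, hsq v hv⟩) hg hm hd hGS hF.con hJ hqB M (CB M W f) Q
      ?_ L θ hc hcore
    intro h h0 hN hT
    rw [hQ]
    intro v hv
    obtain ⟨w, rfl⟩ := exists_above (K := F) M v
    have hw : (W : 𝓞 M) ∈ w.asIdeal := by
      have := (mem_below w _).1 hv
      rwa [map_natCast] at this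
    obtain ⟨h1, h2⟩ := hsplW _ hv
    exact two_of_dns (F := F) (dns_of_deg1 h1 h2) (hT w hw)
  have H : DatT f J 𝔮 := ⟨hm, g, W, S, _, _, hg, hd, hGS, hcQ, hJ⟩
  have hc0 : 0 < (2 * W) ^ 2 := by positivity
  have hT : TCG F F M Bw f J 𝔮 := by
    refine ⟨?_, hDQ, ?_⟩
    · intro v hv
      rw [below_self] at hv
      rw [fo_self]
      rcases hM.unr v with h | h
      · exact Or.inl h
      · refine Or.inr ?_
        rw [hff']
        refine rd_scale ?_ hP'.mon h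
        intro h1
        rw [Nat.cast_pow] at h1
        have h2 := v.isPrime.mem_of_pow_mem _ h1
        rw [Nat.cast_mul] at h2
        rcases v.isPrime.mem_or_mem h2 with h3 | h3
        · exact hB2 v hv (by exact_mod_cast h3)
        · exact hv ((hBwv v).2 h3)
    · intro σ
      rcases hM.real σ with h | h
      · exact Or.inl h
      · refine Or.inr ?_
        have hσ : σ.comp (algebraMap F F) = σ := by
          rw [Algebra.algebraMap_self, RingHom.comp_id]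
        rw [hσ, hff']
        exact one_scale hc0 hP'.mon σ h
  have hMK := hTOW F M Bw (CB M W f) f J 𝔮 H (tokB W f) n F hn hT hPK
  have hirrM : Irreducible (fb M f) :=
    Pool.Agent.N874.JM.irr_up hn hirr (hm.map _) (by
      rw [hm.natDegree_map, hd]
      exact odd_two_mul_add_one _)
  have hDW : D % (8 * W) = 1 % (8 * W) := by
    rw [hD]
    exact Pool.Agent.H459.UD.dp_mod (fun q hq => (hS q hq).mod) hJ
  exact selMT H hMK hDQ hirrM hB2 (by
    intro w hw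
    rw [hBwv] at hw
    have hw' : (W : 𝓞 M) ∈ w.asIdeal := by
      have h1 := (mem_below w _).1 hw
      rwa [map_natCast] at h1
    rw [← hD]
    exact sq_of_mod hw' hDW hD0) (by
    intro p hp w hw
    refine hp w ?_
    rw [hBwv, mem_below, map_natCast]
    exact hw)

end

end Pool.Agent.H458.AG
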